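import Pool.Agent.Y588.KF.Vx
import Pool.Agent.H38R3.Ellentuck

/-!
# The graph has no Borel colouring with finitely many colours
-/

set_option autoImplicit false

namespace Pool.Agent.Y588.KF

open Pool.Agent.H38R3.Ell

/-- The completely Ramsey sets. -/
@[implicit_reducible] def mCR : MeasurableSpace (Set ℕ) where
  MeasurableSet' := CR
  measurableSet_empty := fun _ X hX => ⟨X, subset_rfl, hX, Or.inr fun _ _ h => h⟩
  measurableSet_compl := fun _ h => h.compl
  measurableSet_iUnion := fun _ h => CR.iUnion h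

open Classical in
theorem cr_mem (n : ℕ) : CR {Z | n ∈ Z} := by
  refine EO.cr ?_
  intro z hz hi
  have hz' : n ∈ z := hz
  refine ⟨(Finset.range (n + 1)).filter (· ∈ z), ⟨hi, fun k hk => (Finset.mem_filter.1 hk).2,
    fun k hk => ?_⟩, fun w hw => ?_⟩
  · by_cases hkm : k < n + 1
    · exact Or.inl (Finset.mem_filter.2 ⟨Finset.mem_range.2 hkm, hk⟩)
    · exact Or.inr ⟨hk, fun l hl => by
        have := Finset.mem_range.1 (Finset.mem_filter.1 hl).1
        omega⟩
  · exact hw.2.1 n (Finset.mem_filter.2 ⟨Finset.mem_range.2 (by omega), hz'⟩)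

/-- The two colourings. -/
def tr (a : ℕ) (b : Bool) : Fin 3 := if a % 2 = 0 then (if b then 1 else 0) else 2

theorem tr_succ (a : ℕ) (b : Bool) : tr (a + 1) b ≠ tr a b := by
  unfold tr
  by_cases h : a % 2 = 0
  · rw [if_neg (by omega), if_pos h]
    cases b <;> decide
  · rw [if_pos (by omega), if_neg h]
    cases b <;> decide

theorem tr_two (a : ℕ) {b b' : Bool} (h : b' ≠ b) : tr 2 b ≠ tr a b' := by
  have h1 : tr 2 b = if b then 1 else 0 := rfl
  rw [h1]
  unfold tr
  by_cases h2 : a % 2 = 0
  · rw [if_pos h2]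
    revert h
    cases b <;> cases b' <;> decide
  · rw [if_neg h2]
    cases b <;> decide

open Classical in
/-- The function that belongs to a set. -/
noncomputable def tri (Z : Set ℕ) (l : List Bool) : Fin 3 :=
  tr (Nat.count (· ∈ Z) l.length) (l.getD (sInf Z) false)

theorem length_seg (α : ℕ → Bool) (k : ℕ) : (seg α k).length = k := by simp [seg]

theorem getD_seg {α : ℕ → Bool} {k i : ℕ} (h : i < k) : (seg α k).getD i false = α i := by
  simp [seg, h]

open Classical in
theorem tri_seg {Z : Set ℕ} {α : ℕ → Bool} {k : ℕ} (h : sInf Z < k) :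
    tri Z (seg α k) = tr (Nat.count (· ∈ Z) k) (α (sInf Z)) := by
  rw [tri, length_seg, getD_seg h]

theorem sInf_lt {Z : Set ℕ} {α : ℕ → Bool} {k : ℕ} (h : Nck Z α k) : sInf Z < tm Z α := by
  obtain ⟨i, hi, j, hj, h1, h2, -, -⟩ := (tm_spec h).1
  exact lt_of_le_of_lt (Nat.sInf_le h1) hi

open Classical in
theorem adj_tri {Z : Set ℕ} (hZ : Z.Infinite) :
    G.Adj (vx Z (tri Z)) (vx (Z \ {sInf Z}) (tri (Z \ {sInf Z}))) := by
  obtain ⟨Z', hZ'⟩ : ∃ Z' : Set ℕ, Z' = Z \ {sInf Z} := ⟨_, rfl⟩
  rw [← hZ']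
  have hi' : Z'.Infinite := by
    rw [hZ']
    exact hZ.sdiff (Set.finite_singleton _)
  have hz0 : sInf Z ∈ Z := Nat.sInf_mem hZ.nonempty
  have hz1 : sInf Z' ∈ Z' := Nat.sInf_mem hi'.nonempty
  obtain ⟨z0, hz0d⟩ : ∃ z, z = sInf Z := ⟨_, rfl⟩
  obtain ⟨z1, hz1d⟩ : ∃ z, z = sInf Z' := ⟨_, rfl⟩
  rw [← hz0d] at hz0 hZ'
  rw [← hz1d] at hz1
  have hmem : ∀ n, n ∈ Z' ↔ n ∈ Z ∧ n ≠ z0 := by
    intro n
    rw [hZ']
    exact Iff.rfl
  have hs0 : ∀ n ∈ Z, z0 ≤ n := fun n hn => by
    rw [hz0d]
    exact Nat.sInf_le hn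
  have hs1 : ∀ n ∈ Z', z1 ≤ n := fun n hn => by
    rw [hz1d]
    exact Nat.sInf_le hn
  have h01 : z0 < z1 := lt_of_le_of_ne (hs0 _ ((hmem _).1 hz1).1) ((hmem _).1 hz1).2.symm
  have hge : ∀ n ∈ Z, n ≠ z0 → z1 ≤ n := fun n hn hn0 => hs1 n ((hmem n).2 ⟨hn, hn0⟩)
  have hcount : ∀ m, z0 < m → Nat.count (· ∈ Z) m = Nat.count (· ∈ Z') m + 1 := by
    intro m
    induction m with
    | zero => intro h; omega
    | succ m ih =>
      intro h
      rw [Nat.count_succ, Nat.count_succ]
      rcases Nat.lt_or_ge z0 m with h1 | h1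
      · rw [ih h1]
        have h2 : m ∈ Z ↔ m ∈ Z' := by
          rw [hmem]
          exact ⟨fun h => ⟨h, by omega⟩, fun h => h.1⟩
        by_cases h3 : m ∈ Z
        · rw [if_pos h3, if_pos (h2.1 h3)]
        · rw [if_neg h3, if_neg (fun h => h3 (h2.2 h))]
      · have h2 : m = z0 := by omega
        rw [h2]
        rw [if_pos hz0, if_neg (fun h => ((hmem _).1 h).2 rfl)]
        have h3 : Nat.count (· ∈ Z) z0 = 0 := by
          rw [Nat.count_eq_card_filter_range, Finset.card_eq_zero, Finset.filter_eq_empty_iff]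
          intro n hn hnZ
          have := hs0 n hnZ
          have := Finset.mem_range.1 hn
          omega
        have h4 : Nat.count (· ∈ Z') z0 = 0 := by
          rw [Nat.count_eq_card_filter_range, Finset.card_eq_zero, Finset.filter_eq_empty_iff]
          intro n hn hnZ
          have := hs1 n hnZ
          have := Finset.mem_range.1 hn
          omega
        rw [h3, h4]
  have hc1 : Nat.count (· ∈ Z') (z1 + 1) = 1 := by
    rw [Nat.count_succ, if_pos hz1]
    have h4 : Nat.count (· ∈ Z') z1 = 0 := by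
      rw [Nat.count_eq_card_filter_range, Finset.card_eq_zero, Finset.filter_eq_empty_iff]
      intro n hn hnZ
      have := hs1 n hnZ
      have := Finset.mem_range.1 hn
      omega
    rw [h4]
  refine ⟨by rwa [st_vx], ?_, ?_⟩
  · rw [st_vx, st_vx]
    refine (Set.finite_singleton z0).subset fun n hn => ?_
    rw [Set.mem_symmDiff] at hn
    by_contra h
    rcases hn with ⟨h1, h2⟩ | ⟨h1, h2⟩
    · exact h2 ((hmem n).2 ⟨h1, h⟩)
    · exact h2 ((hmem n).1 h1).1
  · intro α k h1 h2
    rw [st_vx] at h1 h2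
    rw [vl_vx, vl_vx]
    have e1 := sInf_lt h1
    have e2 := sInf_lt h2
    rw [tri_seg e1, tri_seg e2, ← hz0d, ← hz1d]
    rw [← hz0d] at e1
    rw [← hz1d] at e2
    by_cases h3 : α z1 = α z0
    · have h4 : ∀ m, Nck Z α m ↔ Nck Z' α m := by
        intro m
        constructor
        · rintro ⟨i, hi, j, hj, h5, h6, h7, h8⟩
          by_cases hi0 : i = z0
          · have hj0 : j ≠ z0 := by
              rintro rfl
              rw [hi0, h8] at h7
              exact absurd h7 (by decide)
            have hj1 := hge j h6 hj0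
            refine ⟨z1, by omega, j, hj, hz1, (hmem j).2 ⟨h6, hj0⟩, ?_, h8⟩
            rw [h3, ← hi0, h7]
          · by_cases hj0 : j = z0
            · have hi1 := hge i h5 hi0
              refine ⟨i, hi, z1, by omega, (hmem i).2 ⟨h5, hi0⟩, hz1, h7, ?_⟩
              rw [h3, ← hj0, h8]
            · exact ⟨i, hi, j, hj, (hmem i).2 ⟨h5, hi0⟩, (hmem j).2 ⟨h6, hj0⟩, h7, h8⟩
        · rintro ⟨i, hi, j, hj, h5, h6, h7⟩
          exact ⟨i, hi, j, hj, ((hmem i).1 h5).1, ((hmem j).1 h6).1, h7⟩
      have h5 : tm Z α = tm Z' α := by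
        unfold tm
        congr 1
        ext m
        exact h4 m
      rw [← h5, hcount _ e1, h3]
      exact tr_succ _ _
    · have h4 : tm Z α = z1 + 1 := by
        refine tm_eq ?_ ?_
        · cases h5 : α z0 with
          | true =>
            refine ⟨z0, by omega, z1, by omega, hz0, ((hmem _).1 hz1).1, h5, ?_⟩
            rw [h5] at h3
            simpa using h3
          | false =>
            refine ⟨z1, by omega, z0, by omega, ((hmem _).1 hz1).1, hz0, ?_, h5⟩
            rw [h5] at h3
            simpa using h3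
        · rintro m hm ⟨i, hi, j, hj, h5, h6, h7, h8⟩
          by_cases hi0 : i = z0
          · have hj0 : j ≠ z0 := by
              rintro rfl
              rw [hi0, h8] at h7
              exact absurd h7 (by decide)
            have := hge j h6 hj0
            omega
          · have := hge i h5 hi0
            omega
      rw [h4, hcount _ (by omega), hc1]
      exact tr_two _ h3

section

open Classical in
theorem meas_tri : @Measurable (Set ℕ) (ℕ → ℕ) mCR _ fun Z => vx Z (tri Z) := by
  let _ := mCR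
  have hm : ∀ n, Measurable fun Z : Set ℕ => (n ∈ Z : Prop) := fun n =>
    measurableSet_setOfPred.1 (cr_mem n)
  have hc : ∀ n, Measurable fun Z : Set ℕ => Nat.count (· ∈ Z) n := by
    intro n
    induction n with
    | zero => exact measurable_const
    | succ n ih =>
      simp only [Nat.count_succ]
      exact ih.add (Measurable.ite (measurableSet_setOfPred.2 (hm n)) measurable_const
        measurable_const)
  have hs : Measurable fun Z : Set ℕ => sInf Z := by
    refine measurable_to_countable' fun k => ?_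
    have h1 : (fun Z : Set ℕ => sInf Z) ⁻¹' {k} =
        {Z | (k ∈ Z ∧ ∀ j, j < k → j ∉ Z) ∨ (k = 0 ∧ ∀ j, j ∉ Z)} := by
      ext Z
      simp only [Set.mem_preimage, Set.mem_singleton_iff, Set.mem_ofPred_eq]
      constructor
      · intro h
        by_cases h2 : Z.Nonempty
        · left
          rw [← h]
          exact ⟨Nat.sInf_mem h2, fun j hj hjZ => absurd (Nat.sInf_le hjZ) (by omega)⟩
        · right
          rw [Set.not_nonempty_iff_eq_empty] at h2
          subst h2
          rw [Nat.sInf_empty] at h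
          exact ⟨h.symm, fun j h => h⟩
      · rintro (⟨h2, h3⟩ | ⟨rfl, h2⟩)
        · refine le_antisymm (Nat.sInf_le h2) ?_
          by_contra h4
          exact h3 _ (by omega) (Nat.sInf_mem ⟨k, h2⟩)
        · have h3 : Z = ∅ := Set.eq_empty_iff_forall_notMem.2 h2
          rw [h3, Nat.sInf_empty]
    rw [h1]
    exact measurableSet_setOfPred.2 (((hm k).and (Measurable.forall fun j =>
      Measurable.forall fun _ => (hm j).not)).or
        ((measurable_const (a := _)).and (Measurable.forall fun j => (hm j).not)))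
  refine measurable_pi_lambda _ fun m => ?_
  by_cases h1 : m % 2 = 0
  · simp only [vx, h1, if_true]
    exact Measurable.ite (measurableSet_setOfPred.2 (hm _)) measurable_const measurable_const
  · simp only [vx, h1, if_false]
    cases h2 : (Encodable.decode (m / 2) : Option (List Bool)) with
    | none => exact measurable_const
    | some l =>
      simp only [Option.elim_some, tri]
      have h3 : Measurable fun p : ℕ × ℕ => (tr p.1 (l.getD p.2 false)).val :=
        measurable_of_countable _
      exact h3.comp ((hc _).prodMk hs)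

end

/-- A function from the infinite sets of natural numbers to a finite set with completely Ramsey
preimages is constant on the infinite subsets of some infinite set. -/
theorem ramsey (k : ℕ) (F : Set ℕ → Fin k) (hF : @Measurable (Set ℕ) (Fin k) mCR _ F)
    {X : Set ℕ} (hX : X.Infinite) :
    ∃ Y ⊆ X, Y.Infinite ∧ ∃ i, ∀ z ∈ Nb ∅ Y, F z = i := by
  have hS : ∀ i, CR {Z | F Z = i} := fun i => hF (measurableSet_singleton i)
  have key : ∀ s : Finset (Fin k), ∃ Y ⊆ X, Y.Infinite ∧
      ((∃ i, ∀ z ∈ Nb ∅ Y, F z = i) ∨ ∀ z ∈ Nb ∅ Y, F z ∉ s) := by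
    intro s
    induction s using Finset.induction_on with
    | empty => exact ⟨X, subset_rfl, hX, Or.inr fun z _ h => by simp at h⟩
    | insert i s _ ih =>
      obtain ⟨Y, hYX, hY, h | h⟩ := ih
      · exact ⟨Y, hYX, hY, Or.inl h⟩
      · obtain ⟨Y', h1, h2, h3 | h3⟩ := hS i ∅ Y hY
        · exact ⟨Y', h1.trans hYX, h2, Or.inl ⟨i, h3⟩⟩
        · refine ⟨Y', h1.trans hYX, h2, Or.inr fun z hz hzs => ?_⟩
          rcases Finset.mem_insert.1 hzs with h4 | h4
          · exact h3 z hz h4
          · exact h z (Nb_mono h1 hz) h4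
  obtain ⟨Y, hYX, hY, h | h⟩ := key Finset.univ
  · exact ⟨Y, hYX, hY, h⟩
  · exact absurd (Finset.mem_univ _) (h Y ⟨hY, by simp, fun n hn => Or.inr (by rwa [above_empty])⟩)

theorem mem_Nb {Y Z : Set ℕ} (hZ : Z.Infinite) (h : Z ⊆ Y) : Z ∈ Nb ∅ Y :=
  ⟨hZ, by simp, fun n hn => Or.inr (by rw [above_empty]; exact h hn)⟩

/-- The graph has no Borel colouring with finitely many colours. -/
theorem no_borel (k : ℕ) (c : G.Coloring (Fin k)) : ¬ Measurable c := by
  intro hc
  have hF : @Measurable (Set ℕ) (Fin k) mCR _ fun Z => c (vx Z (tri Z)) := by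
    let _ := mCR
    exact hc.comp meas_tri
  obtain ⟨Y, -, hY, i, hi⟩ := ramsey k _ hF Set.infinite_univ
  have h1 := hi Y (mem_Nb hY subset_rfl)
  have h2 := hi (Y \ {sInf Y}) (mem_Nb (hY.sdiff (Set.finite_singleton _)) Set.sdiff_subset)
  exact c.valid (adj_tri hY) (h1.trans h2.symm)

end Pool.Agent.Y588.KF
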