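import Pool.Agent.Y588.KF.Base

/-!
# Graphs that have good colourings on many invariant Borel sets, and the name of the colouring
-/

set_option autoImplicit false
set_option linter.unusedSectionVars false

namespace Pool.Agent.Y588.KF

open Topology Filter Pool.Agent.W868 Pool.Agent.W868.PName Pool.Agent.W910.SY Pool.Agent.W910.BG
open ZFSet (pair)

/-- A Borel graph `G` on the Baire space and a family of invariant Borel sets `B E` with Borel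
`k`-colourings `co E` on them such that every Cohen name is below some condition in some
`B E`. -/
structure Fam (Ω : Type) (k : ℕ) where
  /-- The graph. -/
  G : SimpleGraph (ℕ → ℕ)
  borel : MeasurableSet {p : (ℕ → ℕ) × (ℕ → ℕ) | G.Adj p.1 p.2}
  /-- The sets. -/
  B : Ω → Set (ℕ → ℕ)
  /-- The colourings. -/
  co : Ω → (ℕ → ℕ) → Fin k
  meas_B : ∀ E, MeasurableSet (B E)
  meas_co : ∀ E, Measurable (co E)
  inv : ∀ {x y : ℕ → ℕ}, G.Adj x y → ∀ E, x ∈ B E ↔ y ∈ B E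
  ne : ∀ {x y : ℕ → ℕ}, G.Adj x y → ∀ E, x ∈ B E → y ∈ B E → co E x ≠ co E y
  cover : ∀ (I : Type) (f : NR I) (U : U0 I),
    ∃ (E : Ω) (W : U0 I), W.1 ⊆ U.1 ∧ On W.1 fun x => f.1 x ∈ B E

variable {I Ω : Type} {K : ℕ} (Φ : Fam Ω K)

/-- The set `E` is the least good set for the name `f`. -/
def Dec (f : NR I) (E : Ω) (U : U0 I) : Prop :=
  On U.1 (fun x => f.1 x ∈ Φ.B E) ∧ ∀ F, WellOrderingRel F E → On U.1 fun x => f.1 x ∉ Φ.B F

/-- The colour of the name `f` is `i`. -/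
def Col (f : NR I) (i : Fin K) (U : U0 I) : Prop :=
  ∃ E, Dec Φ f E U ∧ On U.1 fun x => Φ.co E (f.1 x) = i

variable {Φ}

theorem Dec.mono {f : NR I} {E : Ω} {U V : U0 I} (h : Dec Φ f E U) (hV : V.1 ⊆ U.1) :
    Dec Φ f E V := ⟨On.sub h.1 hV, fun F hF => On.sub (h.2 F hF) hV⟩

theorem Col.mono {f : NR I} {i : Fin K} {U V : U0 I} (h : Col Φ f i U) (hV : V.1 ⊆ U.1) :
    Col Φ f i V := by
  obtain ⟨E, h1, h2⟩ := h
  exact ⟨E, h1.mono hV, On.sub h2 hV⟩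

theorem dec_unique {f g : NR I} {E F : Ω} {U : U0 I}
    (h : On U.1 fun x => ∀ D, f.1 x ∈ Φ.B D ↔ g.1 x ∈ Φ.B D) (h1 : Dec Φ f E U) (h2 : Dec Φ g F U) :
    E = F := by
  rcases trichotomous_of (WellOrderingRel : Ω → Ω → Prop) E F with h3 | h3 | h3
  · exact (on_false (U := U) (by
      filter_upwards [h, h1.1, h2.2 E h3] with x a b c hx
      exact c hx ((a hx E).1 (b hx)))).elim
  · exact h3
  · exact (on_false (U := U) (by
      filter_upwards [h, h2.1, h1.2 F h3] with x a b c hx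
      exact c hx ((a hx F).2 (b hx)))).elim

variable (Φ) in
theorem col_dense (f : NR I) (U : U0 I) : ∃ (i : Fin K) (W : U0 I), W.1 ⊆ U.1 ∧ Col Φ f i W := by
  have hwf : WellFounded (WellOrderingRel : Ω → Ω → Prop) := IsWellFounded.wf
  have hne : {E : Ω | ∃ W : U0 I, W.1 ⊆ U.1 ∧ On W.1 fun x => f.1 x ∈ Φ.B E}.Nonempty :=
    Φ.cover I f U
  obtain ⟨W, hWU, hW⟩ := hwf.min_mem _ hne
  set E := hwf.min _ hne with hE
  have h1 : Dec Φ f E W := by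
    refine ⟨hW, fun F hF => ?_⟩
    rcases dec1 f (Φ.meas_B F) U with ⟨V, h2, h3⟩ | h2
    · exact absurd hF (hwf.not_lt_min _ (show F ∈ {E : Ω | ∃ W : U0 I, W.1 ⊆ U.1 ∧
        On W.1 fun x => f.1 x ∈ Φ.B E} from ⟨V, h2, h3⟩))
    · exact On.sub h2 hWU
  by_contra hcon
  push Not at hcon
  have h2 : ∀ i : Fin K, On W.1 fun x => Φ.co E (f.1 x) ≠ i := by
    intro i
    rcases dec1 f (A := {y | Φ.co E y = i}) (Φ.meas_co E (measurableSet_singleton i)) W with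
      ⟨V, h3, h4⟩ | h3
    · exact absurd ⟨E, h1.mono h3, h4⟩ (hcon i V (h3.trans hWU))
    · exact h3
  refine on_false (U := W) ?_
  filter_upwards [eventually_countable_forall.2 h2] with x hx hxW
  exact hx (Φ.co E (f.1 x)) hxW rfl

theorem col_unique {f g : NR I} {i j : Fin K} {U : U0 I} (h : On U.1 fun x => f.1 x = g.1 x)
    (h1 : Col Φ f i U) (h2 : Col Φ g j U) : i = j := by
  obtain ⟨E, h3, h4⟩ := h1
  obtain ⟨F, h5, h6⟩ := h2
  obtain rfl := dec_unique (h.mono fun x hx hxU D => by rw [show f.1 x = g.1 x from hx hxU]) h3 h5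
  by_contra hij
  refine on_false (U := U) ?_
  filter_upwards [h, h4, h6] with x a b c hx
  apply hij
  rw [← b hx, ← c hx, a hx]

theorem col_adj {f g : NR I} {i j : Fin K} {U : U0 I} (h : On U.1 fun x => Φ.G.Adj (f.1 x) (g.1 x))
    (h1 : Col Φ f i U) (h2 : Col Φ g j U) : i ≠ j := by
  obtain ⟨E, h3, h4⟩ := h1
  obtain ⟨F, h5, h6⟩ := h2
  obtain rfl := dec_unique (h.mono fun x hx hxU D => Φ.inv (hx hxU) D) h3 h5
  intro hij
  refine on_false (U := U) ?_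
  filter_upwards [h, h3.1, h5.1, h4, h6] with x a d e b c hx
  exact Φ.ne (a hx) E (d hx) (e hx) (by rw [b hx, c hx, hij])

variable (Φ) in
/-- The name for the colouring. -/
noncomputable def colN3 (I : Type) : PName (P I) :=
  PName.mk {t : (NR I × Fin K) × U0 I // Col Φ t.1.1 t.1.2 t.2}
    (fun t => opN (realN ⊤ t.1.1.1) (check (nat t.1.1.2.val))) (fun t => (⊤, t.1.2))

theorem el_colN3 {z : PName (P I)} {c : P I} : El (colN3 Φ I) z c ↔
    ∃ (f : NR I) (i : Fin K) (U : U0 I), Col Φ f i U ∧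
      z = opN (realN ⊤ f) (check (nat i.val)) ∧ c = (⊤, U) := by
  rw [colN3, el_mk]
  constructor
  · rintro ⟨⟨⟨⟨f, i⟩, U⟩, h⟩, rfl, rfl⟩
    exact ⟨f, i, U, h, rfl, rfl⟩
  · rintro ⟨f, i, U, h, rfl, rfl⟩
    exact ⟨⟨⟨⟨f, i⟩, U⟩, h⟩, rfl, rfl⟩

theorem col_sm (θ : X I ≃ₜ X I) {f : NR I} {i : Fin K} {U : U0 I} (h : Col Φ f i U) :
    Col Φ (smR θ f) i (smU θ U) := by
  obtain ⟨E, h1, h2⟩ := h
  exact ⟨E, ⟨on_sm θ h1.1, fun F hF => on_sm θ (h1.2 F hF)⟩, on_sm θ h2⟩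

variable (Φ) in
theorem hs_colN3 (I : Type) : (sys I ⊤).HS (colN3 Φ I) := by
  refine (sys I ⊤).hs_iff.2 ⟨?_, fun z c hz => ?_⟩
  · refine ⟨Fx ∅, ⟨∅, Set.countable_empty, rfl⟩, fun (θ : X I ≃ₜ X I) _ p => ?_⟩
    change Feq (act (smQ θ) (colN3 Φ I)) (colN3 Φ I) p
    rw [feq_iff']
    constructor
    · intro z c hz q hq hqc
      obtain ⟨z', c', hz', rfl, rfl⟩ := el_act.1 hz
      obtain ⟨f, i, U, h, rfl, rfl⟩ := el_colN3.1 hz'
      refine ⟨q, le_rfl, opN (realN ⊤ (smR θ f)) (check (nat i.val)), smQ θ (⊤, U),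
        el_colN3.2 ⟨_, i, smU θ U, col_sm θ h, rfl, T_NAM.smQ_top θ U⟩, hqc, ?_⟩
      rw [act_opN (T_NAM.htop θ), act_check (T_NAM.htop θ)]
      exact feq_opN (T_NAM.feq_act_realN θ f q) (Feq.refl _ _)
    · intro w d hw q hq hqd
      obtain ⟨f, i, U, h, rfl, rfl⟩ := el_colN3.1 hw
      have h2 : smR θ (smR θ⁻¹ f) = f := by
        refine Subtype.ext (funext fun x => ?_)
        change f.1 (θ (θ.symm x)) = f.1 x
        rw [θ.apply_symm_apply]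
      refine ⟨q, le_rfl, act (smQ θ) (opN (realN ⊤ (smR θ⁻¹ f)) (check (nat i.val))),
        smQ θ (⊤, smU θ⁻¹ U), el_act.2 ⟨_, _, el_colN3.2 ⟨_, i, _, col_sm θ⁻¹ h, rfl, rfl⟩,
          rfl, rfl⟩, ?_, ?_⟩
      · rw [T_NAM.smQ_top, ← smU_mul, mul_inv_cancel, smU_one]
        exact hqd
      · rw [act_opN (T_NAM.htop θ), act_check (T_NAM.htop θ)]
        have h3 := T_NAM.feq_act_realN (Γ := ⊤) θ (smR θ⁻¹ f) q
        rw [h2] at h3
        exact feq_opN h3 (Feq.refl _ _)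
  · obtain ⟨f, i, U, -, rfl, -⟩ := el_colN3.1 hz
    exact (sys I ⊤).hs_opN (T_NAM.hs_realN f) ((sys I ⊤).hs_check _)

/-! ### The colouring in the model -/

variable (Φ I) in
open Classical in
/-- Rules for the colouring. -/
noncomputable def ruK : Set (Rule (P I)) :=
  {r1 (fun (f : NR I) _ => Sys.nm (P I) {r | ∃ i, Col Φ f i r.2}),
   r2 (fun (f g : NR I) _ => Sys.nm (P I)
     {r | On r.2.1 (fun x => (f.1 x, g.1 x) ∈ {p : (ℕ → ℕ) × (ℕ → ℕ) | p.1 = p.2}) ∨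
       On r.2.1 fun x => (f.1 x, g.1 x) ∉ {p : (ℕ → ℕ) × (ℕ → ℕ) | p.1 = p.2}}),
   r2 (fun (f g : NR I) _ => Sys.nm (P I)
     {r | On r.2.1 (fun x => (f.1 x, g.1 x) ∈ {p : (ℕ → ℕ) × (ℕ → ℕ) | Φ.G.Adj p.1 p.2}) ∨
       On r.2.1 fun x => (f.1 x, g.1 x) ∉ {p : (ℕ → ℕ) × (ℕ → ℕ) | Φ.G.Adj p.1 p.2}}),
   r2 (fun (f g : NR I) p => check (cd {x : X I | x ∈ p.2.1 → ¬ f.1 x = g.1 x})),
   r2 (fun (f g : NR I) p => check (cd {x : X I | x ∈ p.2.1 → ¬ Φ.G.Adj (f.1 x) (g.1 x)})),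
   r1 (fun (f : NR I) _ => realN ⊤ f),
   r0 (fun y _ => if h : ∃ f : NR I, y = realN ⊤ f then check (cd h.choose) else emp)}

section

variable {π : Pkg (P I)} {R : Set (Rule (P I))} (hR : ClR R π) (hP : ruP I ⊤ ⊆ R)
  (hC : ruK I Φ ⊆ R) {x : X I} (hx : ∀ k, x ∈ (π.g k).2.1)
  (hx' : ∀ A : Set (X I), Hul π A → A ∈ residual (X I) → x ∈ A)

include hR hC

theorem exists_col3 {f : NR I} (hf : Hul π f) (m : ℕ) :
    ∃ (i : Fin K) (k : ℕ), m ≤ k ∧ Col Φ f i (π.g k).2 := by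
  have h1 := r1_mem hR (F := fun (f : NR I) _ => Sys.nm (P I) {r | ∃ i, Col Φ f i r.2})
    (hC (by simp [ruK])) hf 0
  obtain ⟨k, hk, i, h2⟩ := gen_dense' π (m := m) h1 (fun r ⟨i, hi⟩ q hq => ⟨i, hi.mono hq.2⟩) (by
    intro q _
    obtain ⟨i, W, h2, h3⟩ := col_dense Φ f q.2
    exact ⟨cut q W, cut_le h2, i, h3⟩)
  exact ⟨i, k, hk, h2⟩

theorem realN_mem {f : NR I} (hf : Hul π f) : (realN ⊤ f : PName (P I)) ∈ π.N :=
  r1_mem hR (F := fun (f : NR I) _ => realN ⊤ f) (hC (by simp [ruK])) hf 0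

include hP hx

theorem col_mem3 {f : NR I} (hf : Hul π f) {i : Fin K} {k : ℕ} (h : Col Φ f i (π.g k).2) :
    pair (code (f.1 x)) (nat i.val) ∈ π.val (colN3 Φ I) := by
  have h2 := realN_mem hR hC hf
  have h3 : (check (nat i.val) : PName (P I)) ∈ π.N := π.nat_Z _
  have h5 : El (colN3 Φ I) (opN (realN ⊤ f) (check (nat i.val))) (⊤, (π.g k).2) :=
    el_colN3.2 ⟨f, i, _, h, rfl, rfl⟩
  have h6 := π.val_mem_val (π.opN_mem h2 h3) h5 (n := k) ⟨le_top, le_rfl⟩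
  rw [π.val_opN h2 h3, val_realN hR hP hx hf] at h6
  have h7 : π.val (check (nat i.val)) = nat i.val := π.hat_nat _
  rwa [h7] at h6

include hx'

theorem col_eq3 {f g : NR I} (hf : Hul π f) (hg : Hul π g) {i j : Fin K} {k l : ℕ}
    (hfi : Col Φ f i (π.g k).2) (hgj : Col Φ g j (π.g l).2) (h0 : f.1 x = g.1 x) : i = j := by
  have h1 := r2_mem hR (F := fun (f g : NR I) _ => Sys.nm (P I)
     {r | On r.2.1 (fun x => (f.1 x, g.1 x) ∈ {p : (ℕ → ℕ) × (ℕ → ℕ) | p.1 = p.2}) ∨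
       On r.2.1 fun x => (f.1 x, g.1 x) ∉ {p : (ℕ → ℕ) × (ℕ → ℕ) | p.1 = p.2}})
    (hC (by simp [ruK])) hf hg 0
  obtain ⟨m, hm, h2⟩ := gen_dense' π (m := max k l) h1 (by
    rintro r (hr | hr) q hq
    · exact Or.inl (On.sub hr hq.2)
    · exact Or.inr (On.sub hr hq.2))
    (fun q _ => dec_dense f g (measurableSet_eq_fun measurable_fst measurable_snd) q)
  rcases h2 with h2 | h2
  · exact col_unique h2 (hfi.mono (π.g_anti ((le_max_left k l).trans hm)).2)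
      (hgj.mono (π.g_anti ((le_max_right k l).trans hm)).2)
  · exfalso
    have h6 := r2_mem hR (F := fun (f g : NR I) p => (check (cd {x : X I | x ∈ p.2.1 →
      ¬ f.1 x = g.1 x}) : PName (P I))) (hC (by simp [ruK])) hf hg m
    exact hx' _ h6 h2 (hx m) h0

theorem col_ne3 {f g : NR I} (hf : Hul π f) (hg : Hul π g) {i j : Fin K} {k l : ℕ}
    (hfi : Col Φ f i (π.g k).2) (hgj : Col Φ g j (π.g l).2) (h0 : Φ.G.Adj (f.1 x) (g.1 x)) :
    i ≠ j := by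
  have h1 := r2_mem hR (F := fun (f g : NR I) _ => Sys.nm (P I)
     {r | On r.2.1 (fun x => (f.1 x, g.1 x) ∈ {p : (ℕ → ℕ) × (ℕ → ℕ) | Φ.G.Adj p.1 p.2}) ∨
       On r.2.1 fun x => (f.1 x, g.1 x) ∉ {p : (ℕ → ℕ) × (ℕ → ℕ) | Φ.G.Adj p.1 p.2}})
    (hC (by simp [ruK])) hf hg 0
  obtain ⟨m, hm, h2⟩ := gen_dense' π (m := max k l) h1 (by
    rintro r (hr | hr) q hq
    · exact Or.inl (On.sub hr hq.2)
    · exact Or.inr (On.sub hr hq.2))
    (fun q _ => dec_dense f g Φ.borel q)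
  rcases h2 with h2 | h2
  · exact col_adj h2 (hfi.mono (π.g_anti ((le_max_left k l).trans hm)).2)
      (hgj.mono (π.g_anti ((le_max_right k l).trans hm)).2)
  · exfalso
    have h6 := r2_mem hR (F := fun (f g : NR I) p => (check (cd {x : X I | x ∈ p.2.1 →
      ¬ Φ.G.Adj (f.1 x) (g.1 x)}) : PName (P I))) (hC (by simp [ruK])) hf hg m
    exact hx' _ h6 h2 (hx m) h0

open Classical in
theorem of_col3 {z : ZFSet.{0}} (hz : z ∈ π.val (colN3 Φ I)) : ∃ (f : NR I) (i : Fin K) (k : ℕ),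
    Hul π f ∧ z = pair (code (f.1 x)) (nat i.val) ∧ Col Φ f i (π.g k).2 := by
  obtain ⟨w, hw, c, hwc, ⟨k, hk⟩, rfl⟩ := π.mem_val.1 hz
  obtain ⟨f₀, i, U, hcol, rfl, rfl⟩ := el_colN3.1 hwc
  have h1 : (realN ⊤ f₀ : PName (P I)) ∈ π.N := π.fst_mem hw
  have h2 : ∃ f : NR I, (realN ⊤ f₀ : PName (P I)) = realN ⊤ f := ⟨f₀, rfl⟩
  have h3 := r0_mem hR (F := fun y _ => if h : ∃ f : NR I, y = realN ⊤ f then
    (check (cd h.choose) : PName (P I)) else emp) (hC (by simp [ruK])) h1 0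
  simp only [dif_pos h2] at h3
  obtain ⟨f, hf, hff⟩ : ∃ f : NR I, Hul π f ∧ (realN ⊤ f₀ : PName (P I)) = realN ⊤ f :=
    ⟨_, h3, h2.choose_spec⟩
  have h4 : (check (nat i.val) : PName (P I)) ∈ π.N := π.nat_Z _
  have h7 : π.val (check (nat i.val)) = nat i.val := π.hat_nat _
  obtain ⟨j, l, hl, hj⟩ := exists_col3 hR hC hf k
  have h8 : Col Φ f₀ i (π.g l).2 := hcol.mono ((π.g_anti hl).2.trans hk.2)
  have h9 : i = j := col_unique ((ae_of_realN hff).mono fun y hy _ => hy) h8 hj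
  refine ⟨f, i, l, hf, ?_, h9 ▸ hj⟩
  rw [hff, π.val_opN (hff ▸ h1) h4, val_realN hR hP hx hf, h7]

end

end Pool.Agent.Y588.KF
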