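import Pool.Agent.Y588.KF.Trv
import Pool.Agent.Y588.KF.Fam
import Pool.Agent.W910.BG.Fin

/-!
# The model
-/

set_option autoImplicit false
set_option linter.unusedSectionVars false
set_option linter.unreachableTactic false
set_option linter.unusedTactic false

namespace Pool.Agent.Y588.KF

open Pool.Agent.W868 Pool.Agent.W868.PName Pool.Agent.W910.SY Pool.Agent.W910.BG Topology Filter
open ZFSet (pair)

/-- In the transitive class `M`, the set `c` is a `k`-colouring of the graph `Γ` on the Baire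
space: `c` is a function from the Baire space of `M` (that is, from the set of the functions from
`ω` to `ω` in `M`) to `k = {0, …, k - 1}`, and for adjacent vertices `x`, `y` of `Γ` (if they
are in `M`) the values of `c` are different. -/
def IsColk (M : Set ZFSet.{0}) (Γ : SimpleGraph (ℕ → ℕ)) (k : ℕ) (c : ZFSet.{0}) : Prop :=
  (∃ N ∈ M, (∀ y, y ∈ N ↔ y ∈ M ∧ ZFSet.IsFunc ZFSet.omega ZFSet.omega y) ∧
    ZFSet.IsFunc N (nat k) c) ∧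
  ∀ x y : ℕ → ℕ, Γ.Adj x y → ∀ i, ¬ (pair (code x) i ∈ c ∧ pair (code y) i ∈ c)

variable {Ω : Type} {K : ℕ} (Φ : Fam Ω K)

theorem countable_rules3 :
    (((sys ℝ (⊤ : SimpleGraph (ℕ → ℕ))).rules ∪ ruR ℝ ⊤) ∪ (ruP ℝ ⊤ ∪ ruK ℝ Φ)).Countable := by
  refine ((Set.Finite.countable ?_).union (Set.Finite.countable ?_)).union
    (Set.Countable.union ?_ (Set.Finite.countable ?_))
  · unfold Sys.rules
    exact Set.toFinite _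
  · unfold ruR
    exact Set.toFinite _
  · unfold ruP
    exact ((Set.countable_singleton _).union (Set.countable_range _)).union
      (Set.countable_range _)
  · unfold ruK
    exact Set.toFinite _

theorem isTr_W {M W : Set ZFSet.{0}} {T : ZFSet.{0}}
    (h : ∀ y ∈ W, y ⊆ ZFSet.omega → y ∈ M) (hT : IsTr M T) : IsTr W T :=
  ⟨hT.1, fun x hx hxo => hT.2 x (h x hx hxo) hxo⟩

theorem nat_mem_nat' {i k : ℕ} (h : i < k) : nat i ∈ nat k := T_ULT.nat_mem_nat.2 h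

/-- The model. -/
theorem model3 (z : ℕ → ℕ) : ∃ M : Set ZFSet.{0}, M.Countable ∧ IsZF M ∧ DC M ∧ code z ∈ M ∧
    (∃ c ∈ M, IsColk M Φ.G K c) ∧ (¬ ∃ U ∈ M, IsUlt M U) ∧ ¬ ∃ T ∈ M, IsTr M T := by
  obtain ⟨π, hA, -, hcl⟩ := exists_pkg
    (((sys ℝ (⊤ : SimpleGraph (ℕ → ℕ))).rules ∪ ruR ℝ ⊤) ∪ (ruP ℝ ⊤ ∪ ruK ℝ Φ))
    (countable_rules3 Φ) {colN3 Φ ℝ, check (cd (cst ℝ z))}
    (Set.toFinite _).countable ⊤
  have hR : ClR (((sys ℝ (⊤ : SimpleGraph (ℕ → ℕ))).rules ∪ ruR ℝ ⊤) ∪ (ruP ℝ ⊤ ∪ ruK ℝ Φ)) π :=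
    hcl
  have hP : ruP ℝ ⊤ ⊆ ((sys ℝ (⊤ : SimpleGraph (ℕ → ℕ))).rules ∪ ruR ℝ ⊤) ∪
    (ruP ℝ ⊤ ∪ ruK ℝ Φ) := fun _ h => Or.inr (Or.inl h)
  have hC : ruK ℝ Φ ⊆ ((sys ℝ (⊤ : SimpleGraph (ℕ → ℕ))).rules ∪ ruR ℝ ⊤) ∪
    (ruP ℝ ⊤ ∪ ruK ℝ Φ) := fun _ h => Or.inr (Or.inr h)
  have hCld : (sys ℝ (⊤ : SimpleGraph (ℕ → ℕ))).Cld π := fun ρ hρ => hcl ρ (Or.inl (Or.inl hρ))
  have hM : IsZF ((sys ℝ (⊤ : SimpleGraph (ℕ → ℕ))).Ms π) :=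
    Pool.Agent.W910.SY.T_ZF.main Pool.Agent.W910.SY.T_TRU.main Pool.Agent.W910.SY.T_SEP.main _ _ π hCld
  have hclo := Pool.Agent.W654.SY.main _ (sys ℝ (⊤ : SimpleGraph (ℕ → ℕ))) (T_DST.main ℝ ⊤) π hCld
  have hMW : (sys ℝ (⊤ : SimpleGraph (ℕ → ℕ))).Ms π ⊆ π.W := by
    rintro _ ⟨x, ⟨hx, -⟩, rfl⟩
    exact π.val_mem_W hx
  have hDC : DC ((sys ℝ (⊤ : SimpleGraph (ℕ → ℕ))).Ms π) :=
    Pool.Agent.W910.SY.T_DC.main _ _ π.isZFC_W hM hMW hclo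
  obtain ⟨x, hx, hx'⟩ := point hR hP
  have hrl : ∀ f : NR ℝ, Hul π f → code (f.1 x) ∈ (sys ℝ (⊤ : SimpleGraph (ℕ → ℕ))).Ms π := by
    intro f hf
    exact ⟨realN ⊤ f, ⟨realN_mem hR hC hf, T_NAM.hs_realN f⟩, val_realN hR hP hx hf⟩
  have hreal : ∀ s ∈ π.W, ZFSet.IsFunc ZFSet.omega ZFSet.omega s →
      ∃ f : NR ℝ, Hul π f ∧ s = code (f.1 x) := by
    intro s hs hsf
    obtain ⟨f, hf, h1⟩ := T_REAL.main T_DST.main2 ℝ ⊤ π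
      (fun ρ hρ => hcl ρ (Or.inl (Or.inr hρ))) s hs hsf
    exact ⟨f, hf, h1.trans (val_realN hR hP hx hf)⟩
  have hcN : colN3 Φ ℝ ∈ π.N := hA (Or.inl rfl)
  have hZ := π.isZFC_W.toIsZF
  have hsub : ∀ y ∈ π.W, y ⊆ ZFSet.omega → y ∈ (sys ℝ (⊤ : SimpleGraph (ℕ → ℕ))).Ms π :=
    fun y hy hyo => sub_mem hM hZ (fun s hs hsf => hclo _ hM.infinity s hs hsf) hy hyo
  refine ⟨(sys ℝ (⊤ : SimpleGraph (ℕ → ℕ))).Ms π, (π.cnt.mono fun _ h => h.1).image _, hM, hDC,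
    hrl (cst ℝ z) (hA (Or.inr rfl)),
    ⟨π.val (colN3 Φ ℝ), ⟨colN3 Φ ℝ, ⟨hcN, hs_colN3 Φ ℝ⟩, rfl⟩, ?_, ?_⟩, ?_, ?_⟩
  · -- the colouring is a function
    obtain ⟨Pw, hPw, hPw'⟩ := hM.power _ (hM.prod_mem hM.infinity hM.infinity)
    have hom := hM.infinity
    have h1 : Dfn ((sys ℝ (⊤ : SimpleGraph (ℕ → ℕ))).Ms π)
        ((sys ℝ (⊤ : SimpleGraph (ℕ → ℕ))).Ms π)
        fun w : Fin 1 → ZFSet.{0} => ZFSet.IsFunc ZFSet.omega ZFSet.omega (w 0) :=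
      hM.base.isFunc' (DfnF.const hom) (DfnF.const hom) (DfnF.proj 0)
    have h2 := hM.sep_mem (Q := fun y => ZFSet.IsFunc ZFSet.omega ZFSet.omega y) h1 hPw
    have h3 : ∀ y, y ∈ ZFSet.sep (fun y => ZFSet.IsFunc ZFSet.omega ZFSet.omega y) Pw ↔
        y ∈ (sys ℝ (⊤ : SimpleGraph (ℕ → ℕ))).Ms π ∧
          ZFSet.IsFunc ZFSet.omega ZFSet.omega y := by
      intro y
      rw [ZFSet.mem_sep, hPw']
      exact ⟨fun h => ⟨h.1.1, h.2⟩, fun h => ⟨⟨h.1, h.2.1⟩, h.2⟩⟩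
    refine ⟨_, h2, h3, fun t ht => ?_, fun y hy => ?_⟩
    · obtain ⟨f, i, k, hf, rfl, -⟩ := of_col3 hR hP hC hx hx' ht
      exact ZFSet.pair_mem_prod.2 ⟨(h3 _).2 ⟨hrl f hf, isFunc_code _⟩, nat_mem_nat' i.2⟩
    · obtain ⟨h4, h5⟩ := (h3 y).1 hy
      obtain ⟨f, hf, rfl⟩ := hreal y (hMW h4) h5
      obtain ⟨i, k, -, hfh⟩ := exists_col3 hR hC hf 0
      refine ⟨nat i.val, col_mem3 hR hP hC hx hf hfh, fun w hw => ?_⟩
      obtain ⟨f', i', k', hf', h6, h7⟩ := of_col3 hR hP hC hx hx' hw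
      obtain ⟨h8, h9⟩ := ZFSet.pair_inj.1 h6
      have h10 := col_eq3 hR hP hC hx hx' hf hf' hfh h7 (code_injective h8)
      rw [h9, h10]
  · -- the colouring is proper
    rintro a b hab i ⟨h1, h2⟩
    obtain ⟨f, i1, k, hf, h3, h4⟩ := of_col3 hR hP hC hx hx' h1
    obtain ⟨f', i2, k', hf', h5, h6⟩ := of_col3 hR hP hC hx hx' h2
    obtain ⟨h7, h8⟩ := ZFSet.pair_inj.1 h3
    obtain ⟨h9, h10⟩ := ZFSet.pair_inj.1 h5
    refine col_ne3 hR hP hC hx hx' hf hf' h4 h6 ?_ ?_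
    · rw [← code_injective h7, ← code_injective h9]
      exact hab
    · exact Fin.ext (nat_injective (h8.symm.trans h10))
  · rintro ⟨_, ⟨U, ⟨hUN, hUH⟩, rfl⟩, hUlt⟩
    exact no_ult π U hUN hUH (isUlt_W hsub hUlt)
  · rintro ⟨_, ⟨T, ⟨hTN, hTH⟩, rfl⟩, hTr⟩
    exact no_tr π T hTN hTH (isTr_W hsub hTr)

end Pool.Agent.Y588.KF
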