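import Pool.Agent.Y588.KF.Ram

/-!
# There is no Borel homomorphism to a graph with countable colouring number and chromatic number 3
-/

set_option autoImplicit false

namespace Pool.Agent.Y588.KF

open Topology Filter

theorem meas_sInf {X : Type*} [MeasurableSpace X] {Q : ℕ → X → Prop} (hQ : ∀ n, Measurable (Q n)) :
    Measurable fun x => sInf {n | Q n x} := by
  refine measurable_to_countable' fun k => ?_
  have h1 : (fun x => sInf {n | Q n x}) ⁻¹' {k} =
      {x | (Q k x ∧ ∀ j, j < k → ¬ Q j x) ∨ (k = 0 ∧ ∀ j, ¬ Q j x)} := by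
    ext x
    simp only [Set.mem_preimage, Set.mem_singleton_iff, Set.mem_ofPred_eq]
    constructor
    · intro h
      by_cases h2 : ∃ j, Q j x
      · left
        rw [← h]
        exact ⟨Nat.sInf_mem (s := {n | Q n x}) h2, fun j hj hjQ =>
          absurd (Nat.sInf_le (s := {n | Q n x}) hjQ) (by omega)⟩
      · push Not at h2
        right
        refine ⟨?_, h2⟩
        rw [← h]
        have h3 : {n | Q n x} = ∅ := Set.eq_empty_iff_forall_notMem.2 h2
        rw [h3, Nat.sInf_empty]
    · rintro (⟨h2, h3⟩ | ⟨rfl, h2⟩)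
      · refine le_antisymm (Nat.sInf_le h2) ?_
        by_contra h4
        exact h3 _ (by omega) (Nat.sInf_mem (s := {n | Q n x}) ⟨k, h2⟩)
      · have h3 : {n | Q n x} = ∅ := Set.eq_empty_iff_forall_notMem.2 h2
        rw [h3, Nat.sInf_empty]
  rw [h1]
  exact measurableSet_setOfPred.2 (((hQ k).and (Measurable.forall fun j =>
    Measurable.forall fun _ => (hQ j).not)).or
      ((measurable_const (a := _)).and (Measurable.forall fun j => (hQ j).not)))

theorem meas_vz (i j : Fin 3) :
    Measurable fun p : (ℕ → Bool) × (ℕ → Bool) => vz p.1 (em i j p.2) := by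
  refine measurable_pi_lambda _ fun n => ?_
  by_cases h : n % 2 = 0
  · simp only [vz, h, if_true]
    have h1 : Measurable fun b : Bool => if b then 1 else 0 := measurable_of_countable _
    exact h1.comp ((measurable_pi_apply _).comp measurable_fst)
  · simp only [vz, h, if_false, em]
    have h1 : Measurable fun b : Bool => (if b then i else j).val := measurable_of_countable _
    exact h1.comp ((measurable_pi_apply _).comp measurable_snd)

/-- There is no Borel homomorphism from the graph to a graph that has a 3-colouring and countable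
colouring number. -/
theorem no_hom {Y : Type} [MeasurableSpace Y] [StandardBorelSpace Y] (Δ : SimpleGraph Y)
    (hΔ : Δ.Colorable 3) (r : Y → Y → Prop) [IsWellOrder Y r]
    (hr : ∀ y, {x | Δ.Adj x y ∧ r x y}.Finite) (h : (ℕ → ℕ) → Y) (hm : Measurable h)
    (hh : ∀ x y, G.Adj x y → Δ.Adj (h x) (h y)) : False := by
  obtain ⟨κ⟩ := hΔ
  obtain ⟨e0, he0, he0'⟩ := MeasurableSpace.measurable_injection_nat_bool_of_countablySeparated Y
  let b : Bool → ℕ := fun v => if v then 1 else 0
  have hb : Function.Injective b := by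
    intro v w
    cases v <;> cases w <;> simp [b]
  let e : Y → ℕ → ℕ := fun y n => b (e0 y n)
  have he' : Function.Injective e := fun y z hyz => he0' (funext fun n => hb (congrFun hyz n))
  have hbm : Measurable b := measurable_of_countable _
  have he : Measurable e := measurable_pi_lambda _ fun n =>
    hbm.comp ((measurable_pi_apply n).comp he0)
  have hv : ∀ i j, Measurable fun p : (ℕ → Bool) × (ℕ → Bool) => e (h (vz p.1 (em i j p.2))) :=
    fun i j => he.comp (hm.comp (meas_vz i j))
  let Q : ℕ → (ℕ → Bool) → Prop := fun n a => ∃ l : List Bool, l.length = n ∧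
    (GCon (fun z => e (h (vz a (em 1 0 z)))) l ∨ GCon (fun z => e (h (vz a (em 1 2 z)))) l)
  have hQ : ∀ n, Measurable (Q n) := fun n => Measurable.exists fun l =>
    (measurable_const (a := _)).and ((measurableSet_setOfPred.1
      (meas_gcon (v := fun a z => e (h (vz a (em 1 0 z)))) (hv 1 0) l)).or
        (measurableSet_setOfPred.1
          (meas_gcon (v := fun a z => e (h (vz a (em 1 2 z)))) (hv 1 2) l)))
  let M : (ℕ → Bool) → ℕ := fun a => sInf {n | Q n a}
  have hM : Measurable M := meas_sInf hQ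
  have hc : ∀ x y, G.Adj x y → κ (h x) ≠ κ (h y) := fun x y hxy => κ.valid (hh x y hxy)
  have hadj : ∀ a : ℕ → Bool, (sa a).Infinite → ∀ φ ψ : ℕ → Fin 3, (∀ n, φ n ≠ ψ n) →
      G.Adj (vz a φ) (vz a ψ) := fun a ha φ ψ hφ =>
    adj_vz ha (by rw [symmDiff_self]; exact Set.finite_empty) fun _ _ _ _ => hφ _
  have key : ∀ a : ℕ → Bool, (sa a).Infinite → ∃ (α : ℕ → Bool) (π : Fin 3 → Fin 3),
      Function.Injective π ∧ (∃ k, Nck (sa a) α k) ∧
      (∀ φ : ℕ → Fin 3, κ (h (vz a φ)) = π (φ (Encodable.encode (seg α (tm (sa a) α))))) ∧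
      Encodable.encode (seg α (tm (sa a) α)) < M a := by
    intro a ha
    obtain ⟨l0, hl0⟩ := exists_gcon Δ r hr (fun φ => h (vz a φ))
      (fun φ ψ hφ => hh _ _ (hadj a ha φ ψ hφ)) e fun i j =>
        (hv i j).comp (measurable_const.prodMk measurable_id : Measurable fun z : ℕ → Bool => (a, z))
    obtain ⟨l, hl, hgl⟩ : Q (M a) a := Nat.sInf_mem (s := {n | Q n a}) ⟨_, l0, rfl, hl0⟩
    obtain ⟨φ, ψ, h1, h2⟩ : ∃ φ ψ : ℕ → Fin 3, (∀ n, ¬ n < l.length → φ n ≠ ψ n) ∧
        h (vz a φ) = h (vz a ψ) := by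
      rcases hgl with h1 | h1
      · exact of_gcon (fun φ => h (vz a φ)) e he' (by decide) h1
      · exact of_gcon (fun φ => h (vz a φ)) e he' (by decide) h1
    obtain ⟨n, hn, π, hπ, h3⟩ := gl (fun φ : ℕ → Fin 3 => κ (h (vz a φ)))
      (fun φ ψ hφ => hc _ _ (hadj a ha φ ψ hφ)) (d := {n | n < l.length})
      (Set.finite_lt_nat _) h1 (congrArg κ h2)
    obtain ⟨α, h4, h5⟩ := pt_form (c := fun x => κ (h x)) hc ha h3
    subst h5
    refine ⟨α, π, hπ, h4, h3, ?_⟩
    rw [← hl]
    exact hn
  choose! α π hπ hα hφ hlt using key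
  refine ramsey_contra M hM α (fun a => tm (sa a) (α a)) (fun a ha => ?_) (fun a ha => ?_)
    fun a b' ha hb' hab => ?_
  · obtain ⟨k, hk⟩ := hα a ha
    exact (tm_spec hk).1
  · have h1 : (seg (α a) (tm (sa a) (α a))).length = tm (sa a) (α a) := by simp [seg]
    have h2 := Encodable.length_le_encode (seg (α a) (tm (sa a) (α a)))
    have h3 := hlt a ha
    change tm (sa a) (α a) ≤ M a
    omega
  · exact pt_comp (c := fun x => κ (h x)) hc ha hab (hπ b' hb') (hφ a ha) (hφ b' hb')

end Pool.Agent.Y588.KF
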