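import Pool.Agent.W910.BG.Col
import Pool.Agent.W910.BG.T_NAM

/-!
# Preliminaries on Cohen names
-/

set_option autoImplicit false
set_option linter.unusedSectionVars false

namespace Pool.Agent.Y588.KF

open Topology Filter Pool.Agent.W868 Pool.Agent.W868.PName Pool.Agent.W910.SY Pool.Agent.W910.BG
open ZFSet (pair)

variable {I : Type}

/-- The Cohen conditions, with a trivial second part. -/
abbrev P (I : Type) : Type := Q I (⊤ : SimpleGraph (ℕ → ℕ))

theorem On.sub {U V : Set (X I)} {φ : X I → Prop} (h : On U φ) (hV : V ⊆ U) : On V φ :=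
  h.mono fun _ hx hxV => hx (hV hxV)

theorem on_false {U : U0 I} (h : On U.1 fun _ => False) : False := by
  obtain ⟨x, hx, hx'⟩ := (dense_of_mem_residual h).inter_open_nonempty _ U.2.1 U.2.2
  exact hx' hx

/-- The Baire property. -/
theorem dec1 (f : NR I) {A : Set (ℕ → ℕ)} (hA : MeasurableSet A) (U : U0 I) :
    (∃ W : U0 I, W.1 ⊆ U.1 ∧ On W.1 fun x => f.1 x ∈ A) ∨ On U.1 fun x => f.1 x ∉ A := by
  have hB : MeasurableSet {p : (ℕ → ℕ) × (ℕ → ℕ) | p.1 ∈ A} := measurable_fst hA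
  obtain ⟨u, hu, h1⟩ := (baire_pre f f hB).residualEq_isOpen
  rw [Filter.eventuallyEq_set] at h1
  by_cases h2 : (U.1 ∩ u).Nonempty
  · obtain ⟨W, hW1, hW2⟩ := exists_sub U.2.1 hu h2
    exact Or.inl ⟨W, hW1, h1.mono fun x hx hxW => hx.2 (hW2 hxW)⟩
  · exact Or.inr (h1.mono fun x hx hxW hB => h2 ⟨x, hxW, hx.1 hB⟩)

/-- The locally constant points of a name. -/
theorem lc_res (f : NR I) (n : ℕ) : ∀ᶠ x in residual (X I), ∀ᶠ y in 𝓝 x, f.1 y n = f.1 x n := by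
  have h11 : Dense {y : X I | ∀ᶠ z in 𝓝 y, f.1 z n = f.1 y n} := f.2.2 n
  have h12 : {y : X I | ∀ᶠ z in 𝓝 y, f.1 z n = f.1 y n} =
      ⋃ m, {y : X I | ∀ᶠ z in 𝓝 y, f.1 z n = m} := by
    ext y
    simp only [Set.mem_ofPred_eq, Set.mem_iUnion]
    constructor
    · intro h
      exact ⟨_, h⟩
    · rintro ⟨m, h⟩
      have h4 : f.1 y n = m := h.self_of_nhds
      rw [h4]
      exact h
  have h13 : IsOpen {y : X I | ∀ᶠ z in 𝓝 y, f.1 z n = f.1 y n} := by
    rw [h12]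
    exact isOpen_iUnion fun m => isOpen_setOfPred_eventually_nhds
  exact residual_of_dense_open h13 h11

/-- A countable base. -/
theorem exists_base (Y : Type) [TopologicalSpace Y] [SecondCountableTopology Y] [Nonempty Y] :
    ∃ b : ℕ → Set Y, (∀ n, IsOpen (b n)) ∧ (∀ n, (b n).Nonempty) ∧
      ∀ V : Set Y, IsOpen V → V.Nonempty → ∃ n, b n ⊆ V := by
  obtain ⟨B, hBc, hBe, hB⟩ := TopologicalSpace.exists_countable_basis Y
  have hne : B.Nonempty := by
    obtain ⟨v, hv, -⟩ := hB.exists_subset_of_mem_open (Set.mem_univ (Classical.arbitrary Y))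
      isOpen_univ
    exact ⟨v, hv⟩
  obtain ⟨b, rfl⟩ := hBc.exists_eq_range hne
  refine ⟨b, fun n => hB.isOpen ⟨n, rfl⟩, fun n => ?_, fun V hV ⟨y, hy⟩ => ?_⟩
  · rw [Set.nonempty_iff_ne_empty]
    intro h
    exact hBe ⟨n, h⟩
  · obtain ⟨_, ⟨n, rfl⟩, -, h⟩ := hB.exists_subset_of_mem_open hy hV
    exact ⟨n, h⟩

theorem on_sm (θ : X I ≃ₜ X I) {U : U0 I} {φ : X I → Prop} (h : On U.1 φ) :
    On (smU θ U).1 fun x => φ (θ.symm x) := by
  have h1 := on_homeo θ.symm h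
  refine On.sub h1 ?_
  rintro _ ⟨x, hx, rfl⟩
  change θ.symm (θ x) ∈ U.1
  rwa [θ.symm_apply_apply]

theorem ae_of_realN {f₀ f : NR I} (hff : (realN ⊤ f₀ : PName (P I)) = realN ⊤ f) :
    ∀ᶠ y in residual (X I), f₀.1 y = f.1 y := by
  have h8 : ∀ (n m : ℕ) (U : U0 I), (∀ y ∈ U.1, f₀.1 y n = m) → ∀ y ∈ U.1, f.1 y n = m := by
    intro n m U hU
    have h9 : El (realN ⊤ f : PName (P I)) (check (pair (nat n) (nat m))) (⊤, U) := by
      rw [← hff]
      exact ⟨⟨((n, m), U), hU⟩, rfl, rfl⟩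
    obtain ⟨⟨⟨⟨n', m'⟩, U'⟩, hU'⟩, e1, e2⟩ := h9
    have e3 := ZFSet.pair_inj.1 (check_injective e1)
    have e4 : n' = n := nat_injective e3.1
    have e5 : m' = m := nat_injective e3.2
    have e6 : U' = U := (Prod.ext_iff.1 e2).2
    subst e4 e5 e6
    exact hU'
  refine (eventually_countable_forall.2 fun n => ?_).mono fun y hy => funext hy
  filter_upwards [lc_res f₀ n] with y hy
  obtain ⟨V, hV, hVo, hyV⟩ := eventually_nhds_iff.1
    (show ∀ᶠ z in 𝓝 y, f₀.1 z n = f₀.1 y n from hy)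
  exact (h8 n (f₀.1 y n) ⟨V, hVo, y, hyV⟩ (fun z hz => hV z hz) y hyV).symm

end Pool.Agent.Y588.KF
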