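import Pool.Agent.Y588.KF.Gr

/-!
# Baire category in the Cantor space
-/

set_option autoImplicit false

namespace Pool.Agent.Y588.KF

open Topology Filter

/-- The sequences that agree with `α` below `n`. -/
def Cy (α : ℕ → Bool) (n : ℕ) : Set (ℕ → Bool) := {z | ∀ i < n, z i = α i}

/-- The sequences that extend the finite sequence `l`. -/
def Cl (l : List Bool) : Set (ℕ → Bool) := Cy (ext l) l.length

theorem cy_open (α : ℕ → Bool) (n : ℕ) : IsOpen (Cy α n) := by
  have h : Cy α n = ⋂ i ∈ Finset.range n, (fun z : ℕ → Bool => z i) ⁻¹' {α i} := by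
    ext z
    simp [Cy]
  rw [h]
  exact isOpen_biInter_finset fun i _ => (isOpen_discrete _).preimage (continuous_apply i)

theorem cy_closed (α : ℕ → Bool) (n : ℕ) : IsClosed (Cy α n) := by
  have h : Cy α n = ⋂ i, ⋂ (_ : i < n), (fun z : ℕ → Bool => z i) ⁻¹' {α i} := by
    ext z
    simp [Cy]
  rw [h]
  exact isClosed_iInter fun i => isClosed_iInter fun _ =>
    (isClosed_discrete _).preimage (continuous_apply i)

theorem self_mem_cy (α : ℕ → Bool) (n : ℕ) : α ∈ Cy α n := fun _ _ => rfl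

theorem exists_cy {V : Set (ℕ → Bool)} (hV : IsOpen V) {x : ℕ → Bool} (hx : x ∈ V) :
    ∃ n, Cy x n ⊆ V := by
  obtain ⟨s, t, h1, h2⟩ := isOpen_pi_iff.1 hV x hx
  refine ⟨s.sup id + 1, fun y hy => h2 fun i hi => ?_⟩
  have h3 : i ≤ s.sup id := Finset.le_sup (f := id) hi
  rw [hy i (by omega)]
  exact (h1 i hi).2

theorem cy_congr {α β : ℕ → Bool} {n : ℕ} (h : ∀ i < n, α i = β i) : Cy α n = Cy β n := by
  ext z
  constructor
  · intro hz i hi
    rw [hz i hi, h i hi]
  · intro hz i hi
    rw [hz i hi, h i hi]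

theorem cl_seg (α : ℕ → Bool) (n : ℕ) : Cl (seg α n) = Cy α n := by
  have h : (seg α n).length = n := by simp [seg]
  unfold Cl
  rw [h]
  exact (cy_congr (ext_seg α n)).symm

theorem cy_mono {α : ℕ → Bool} {m n : ℕ} (h : m ≤ n) : Cy α n ⊆ Cy α m :=
  fun _ hz i hi => hz i (by omega)

theorem not_meagre_cy (α : ℕ → Bool) (n : ℕ) : ¬ IsMeagre (Cy α n) := by
  intro h
  obtain ⟨x, hx, hx'⟩ := (dense_of_mem_residual h).inter_open_nonempty _ (cy_open α n)
    ⟨α, self_mem_cy α n⟩
  exact hx' hx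

/-- Borel sets that are not meagre are comeagre in a basic open set. -/
theorem bp {D : Set (ℕ → Bool)} (hD : MeasurableSet D) (h : ¬ IsMeagre D) :
    ∃ (x : ℕ → Bool) (n : ℕ), IsMeagre (Cy x n \ D) := by
  obtain ⟨u, hu, h1⟩ := hD.residualEq_isOpen
  rw [Filter.eventuallyEq_set] at h1
  rcases u.eq_empty_or_nonempty with rfl | ⟨x, hx⟩
  · exact absurd (show IsMeagre D from h1.mono fun y hy hyD => hy.1 hyD) h
  · obtain ⟨n, hn⟩ := exists_cy hu hx
    exact ⟨x, n, h1.mono fun y hy hyD => hyD.2 (hy.2 (hn hyD.1))⟩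

/-- If `D` is a subset of a basic open set then so is the set where it is comeagre. -/
theorem sub_of_meagre {α β : ℕ → Bool} {m n : ℕ} {D : Set (ℕ → Bool)} (hD : D ⊆ Cy α m)
    (h : IsMeagre (Cy β n \ D)) : Cy β n ⊆ Cy α m := by
  intro z hz
  by_contra h1
  obtain ⟨k, hk⟩ := exists_cy ((cy_open β n).inter (cy_closed α m).isOpen_compl) ⟨hz, h1⟩
  refine not_meagre_cy z k (h.mono ?_)
  intro y hy
  exact ⟨(hk hy).1, fun h2 => (hk hy).2 (hD h2)⟩

/-- The theorem of Kuratowski and Ulam. -/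
theorem ku {X Y : Type*} [TopologicalSpace X] [TopologicalSpace Y] [SecondCountableTopology Y]
    {A : Set (X × Y)} (hA : A ∈ residual (X × Y)) :
    ∀ᶠ x in residual X, ∀ᶠ y in residual Y, (x, y) ∈ A := by
  obtain ⟨S, h1, h2, h3, h4⟩ := mem_residual_iff.1 hA
  obtain ⟨b, hbc, hbe, hb⟩ := TopologicalSpace.exists_countable_basis Y
  have key : ∀ W ∈ S, ∀ᶠ x in residual X, ∀ᶠ y in residual Y, (x, y) ∈ W := by
    intro W hW
    have h5 : ∀ v ∈ b, ∀ᶠ x in residual X, ∃ y ∈ v, (x, y) ∈ W := by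
      intro v hv
      refine residual_of_dense_open ?_ ?_
      · have : {x : X | ∃ y ∈ v, (x, y) ∈ W} = ⋃ y ∈ v, (fun x => (x, y)) ⁻¹' W := by
          ext x
          simp
        rw [this]
        exact isOpen_biUnion fun y _ => (h1 W hW).preimage (by fun_prop)
      · rw [dense_iff_inter_open]
        intro U hU hUn
        obtain ⟨⟨x, y⟩, ⟨hx, hy⟩, hxy⟩ := (h2 W hW).inter_open_nonempty (U ×ˢ v)
          (hU.prod (hb.isOpen hv)) (hUn.prod (Set.nonempty_iff_ne_empty.2 fun h => hbe (h ▸ hv)))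
        exact ⟨x, hx, y, hy, hxy⟩
    filter_upwards [(eventually_countable_ball hbc).2 h5] with x hx
    refine residual_of_dense_open ((h1 W hW).preimage (by fun_prop)) ?_
    rw [dense_iff_inter_open]
    rintro V hV ⟨y, hy⟩
    obtain ⟨v, hv, hyv, hvV⟩ := hb.exists_subset_of_mem_open hy hV
    obtain ⟨y', hy', hxy'⟩ := hx v hv
    exact ⟨y', hvV hy', hxy'⟩
  filter_upwards [(eventually_countable_ball h3).2 key] with x hx
  filter_upwards [(eventually_countable_ball h3).2 hx] with y hy
  exact h4 hy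

/-! ### The category quantifier -/

/-- The Borel sets for which the category quantifier gives Borel sets. -/
@[implicit_reducible] def mMN (X : Type*) [MeasurableSpace X] :
    MeasurableSpace (X × (ℕ → Bool)) where
  MeasurableSet' B := MeasurableSet B ∧
    ∀ l : List Bool, MeasurableSet {x | IsMeagre ({z | (x, z) ∈ B} ∩ Cl l)}
  measurableSet_empty := by
    refine ⟨MeasurableSet.empty, fun l => ?_⟩
    have : {x : X | IsMeagre ({z | (x, z) ∈ (∅ : Set (X × (ℕ → Bool)))} ∩ Cl l)} = Set.univ := by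
      refine Set.eq_univ_of_forall fun x => ?_
      have h1 : {z : ℕ → Bool | (x, z) ∈ (∅ : Set (X × (ℕ → Bool)))} ∩ Cl l = ∅ := by
        ext z
        simp
      change IsMeagre _
      rw [h1]
      exact IsMeagre.empty
    rw [this]
    exact MeasurableSet.univ
  measurableSet_compl := by
    rintro B ⟨hB, h⟩
    refine ⟨hB.compl, fun l => ?_⟩
    have hs : ∀ x, MeasurableSet {z | (x, z) ∈ B} := fun x => measurable_prodMk_left hB
    have : {x : X | IsMeagre ({z | (x, z) ∈ Bᶜ} ∩ Cl l)} =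
        ⋂ l' : List Bool, ⋂ (_ : Cl l' ⊆ Cl l), {x | IsMeagre ({z | (x, z) ∈ B} ∩ Cl l')}ᶜ := by
      ext x
      simp only [Set.mem_iInter, Set.mem_compl_iff, Set.mem_ofPred_eq]
      constructor
      · intro h1 l' hl' h2
        refine not_meagre_cy (ext l') l'.length ((h1.union h2).mono fun z hz => ?_)
        by_cases hzB : (x, z) ∈ B
        · exact Or.inr ⟨hzB, hz⟩
        · exact Or.inl ⟨hzB, hl' hz⟩
      · intro h1
        by_contra h2
        obtain ⟨y, n, hy⟩ := bp (((hs x).compl).inter (cy_open _ _).measurableSet) h2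
        have h3 := sub_of_meagre Set.inter_subset_right hy
        refine h1 (seg y n) (by rw [cl_seg]; exact h3) (hy.mono ?_)
        rw [cl_seg]
        rintro z ⟨hz1, hz2⟩
        exact ⟨hz2, fun h4 => h4.1 hz1⟩
    rw [this]
    exact MeasurableSet.iInter fun l' => MeasurableSet.iInter fun _ => (h l').compl
  measurableSet_iUnion := by
    intro B hB
    refine ⟨MeasurableSet.iUnion fun n => (hB n).1, fun l => ?_⟩
    have : {x : X | IsMeagre ({z | (x, z) ∈ ⋃ n, B n} ∩ Cl l)} =
        ⋂ n, {x | IsMeagre ({z | (x, z) ∈ B n} ∩ Cl l)} := by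
      ext x
      simp only [Set.mem_iInter, Set.mem_ofPred_eq]
      constructor
      · intro h n
        refine h.mono ?_
        intro z hz
        exact ⟨Set.mem_iUnion.2 ⟨n, hz.1⟩, hz.2⟩
      · intro h
        refine (isMeagre_iUnion h).mono fun z hz => ?_
        obtain ⟨n, hn⟩ := Set.mem_iUnion.1 hz.1
        exact Set.mem_iUnion.2 ⟨n, hn, hz.2⟩
    rw [this]
    exact MeasurableSet.iInter fun n => (hB n).2 l

/-- The category quantifier gives Borel sets. -/
theorem meas_cat {X : Type*} [MeasurableSpace X] {B : Set (X × (ℕ → Bool))}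
    (hB : MeasurableSet B) (l : List Bool) :
    MeasurableSet {x | IsMeagre ({z | (x, z) ∈ B} ∩ Cl l)} := by
  have h1 : (Prod.instMeasurableSpace : MeasurableSpace (X × (ℕ → Bool))) ≤ mMN X := by
    rw [← generateFrom_prod]
    refine MeasurableSpace.generateFrom_le ?_
    rintro _ ⟨A, hA, D, hD, rfl⟩
    have hA' : MeasurableSet A := hA
    have hD' : MeasurableSet D := hD
    refine ⟨hA'.prod hD', fun l => ?_⟩
    by_cases h2 : IsMeagre (D ∩ Cl l)
    · have : {x : X | IsMeagre ({z | (x, z) ∈ A ×ˢ D} ∩ Cl l)} = Set.univ :=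
        Set.eq_univ_of_forall fun x => by
          refine h2.mono ?_
          intro z hz
          exact ⟨hz.1.2, hz.2⟩
      rw [this]
      exact MeasurableSet.univ
    · have : {x : X | IsMeagre ({z | (x, z) ∈ A ×ˢ D} ∩ Cl l)} = Aᶜ := by
        ext x
        constructor
        · intro h3 hx
          refine h2 (h3.mono ?_)
          intro z hz
          exact ⟨⟨hx, hz.1⟩, hz.2⟩
        · intro hx
          exact (IsMeagre.empty).mono fun z hz => hx hz.1.1
      rw [this]
      exact hA'.compl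
  exact (h1 _ hB).2 l

end Pool.Agent.Y588.KF
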