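import Pool.Agent.Y588.KF.Vx
import Pool.Agent.Y588.KF.Fam

/-!
# Colourings of parts of the graph
-/

set_option autoImplicit false
set_option linter.unusedSectionVars false

namespace Pool.Agent.Y588.KF

open Topology Filter Pool.Agent.W910.BG

/-- The set `A` is infinite. -/
def Inf (A : Set ℕ) : Prop := ∀ N, ∃ n, N ≤ n ∧ n ∈ A

/-- The sequence `α` is infinitely often `true` and infinitely often `false` on `A`. -/
def Spl (α : ℕ → Bool) (A : Set ℕ) : Prop :=
  (∀ N, ∃ n, N ≤ n ∧ n ∈ A ∧ α n = true) ∧ ∀ N, ∃ n, N ≤ n ∧ n ∈ A ∧ α n = false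

/-- The vertices that get a colour. -/
def B (α : ℕ → Bool) : Set (ℕ → ℕ) := {x | ¬ Inf (st x) ∨ Spl α (st x)}

theorem inf_iff {A : Set ℕ} : Inf A ↔ A.Infinite := by
  constructor
  · intro h
    rw [Set.infinite_iff_exists_gt]
    intro N
    obtain ⟨n, hn, h1⟩ := h (N + 1)
    exact ⟨n, h1, by omega⟩
  · intro h N
    obtain ⟨n, hn, hN⟩ := h.exists_gt N
    exact ⟨n, hN.le, hn⟩

theorem meas_inf : Measurable fun x : ℕ → ℕ => Inf (st x) :=
  Measurable.forall fun _ => Measurable.exists fun n => (measurable_const (a := _)).and (meas_st n)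

theorem meas_spl (α : ℕ → Bool) : Measurable fun x : ℕ → ℕ => Spl α (st x) :=
  (Measurable.forall fun _ => Measurable.exists fun n => (measurable_const (a := _)).and
    ((meas_st n).and measurable_const)).and
    (Measurable.forall fun _ => Measurable.exists fun n => (measurable_const (a := _)).and
    ((meas_st n).and measurable_const))

theorem meas_B (α : ℕ → Bool) : MeasurableSet (B α) :=
  measurableSet_setOfPred.2 (meas_inf.not.or (meas_spl α))

theorem tail_of_adj {x y : ℕ → ℕ} (h : G.Adj x y) : ∃ N, ∀ n, N ≤ n → (n ∈ st x ↔ n ∈ st y) :=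
  (adj_iff.1 h).2.1

theorem inf_of_adj {x y : ℕ → ℕ} (h : G.Adj x y) : Inf (st x) := (adj_iff.1 h).1

theorem spl_tail {α : ℕ → Bool} {A A' : Set ℕ} {N : ℕ} (h : ∀ n, N ≤ n → (n ∈ A ↔ n ∈ A'))
    (hA : Spl α A) : Spl α A' := by
  constructor
  · intro M
    obtain ⟨n, hn, h1, h2⟩ := hA.1 (max M N)
    exact ⟨n, le_of_max_le_left hn, (h n (le_of_max_le_right hn)).1 h1, h2⟩
  · intro M
    obtain ⟨n, hn, h1, h2⟩ := hA.2 (max M N)
    exact ⟨n, le_of_max_le_left hn, (h n (le_of_max_le_right hn)).1 h1, h2⟩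

theorem spl_nck {α : ℕ → Bool} {A : Set ℕ} (h : Spl α A) : ∃ k, Nck A α k := by
  obtain ⟨i, -, h1, h2⟩ := h.1 0
  obtain ⟨j, -, h3, h4⟩ := h.2 0
  exact ⟨max i j + 1, i, by omega, j, by omega, h1, h3, h2, h4⟩

theorem B_inv {x y : ℕ → ℕ} (h : G.Adj x y) (α : ℕ → Bool) : x ∈ B α ↔ y ∈ B α := by
  obtain ⟨N, hN⟩ := tail_of_adj h
  have h1 : ¬ ¬ Inf (st x) := fun h' => h' (inf_of_adj h)
  have h2 : ¬ ¬ Inf (st y) := fun h' => h' (inf_of_adj h.symm)
  constructor
  · rintro (h3 | h3)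
    · exact absurd h3 h1
    · exact Or.inr (spl_tail hN h3)
  · rintro (h3 | h3)
    · exact absurd h3 h2
    · exact Or.inr (spl_tail (fun n hn => (hN n hn).symm) h3)

theorem vl_ne {x y : ℕ → ℕ} (h : G.Adj x y) (α : ℕ → Bool) (hx : x ∈ B α) (hy : y ∈ B α) :
    vl x α ≠ vl y α := by
  rcases hx with hx | hx
  · exact absurd (inf_of_adj h) hx
  rcases hy with hy | hy
  · exact absurd (inf_of_adj h.symm) hy
  obtain ⟨k, hk⟩ := spl_nck hx
  obtain ⟨l, hl⟩ := spl_nck hy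
  exact h.2.2 α (max k l) (hk.mono (le_max_left _ _)) (hl.mono (le_max_right _ _))

/-- There is a set that splits countably many infinite sets. -/
theorem exists_split (R : ℕ → Set ℕ) (hR : ∀ i, (R i).Infinite) :
    ∃ α : ℕ → Bool, ∀ i, (∃ m ∈ R i, α m = true) ∧ ∃ m ∈ R i, α m = false := by
  classical
  have h1 : ∀ i n : ℕ, ∃ m ∈ R i, n < m := fun i n => (hR i).exists_gt n
  choose g hg1 hg2 using h1
  let a : ℕ → ℕ := fun n => Nat.rec (g 0 0) (fun n x => g ((n + 1) / 2) x) n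
  have ha1 : ∀ n, a (n + 1) = g ((n + 1) / 2) (a n) := fun n => rfl
  have hmono : StrictMono a := strictMono_nat_of_lt_succ fun n => by
    rw [ha1]
    exact hg2 _ _
  have hmem : ∀ n, a n ∈ R (n / 2) := by
    intro n
    cases n with
    | zero => exact hg1 0 0
    | succ n =>
      rw [ha1]
      exact hg1 _ _
  let E : Set ℕ := {m | ∃ j : ℕ, a (2 * j) = m}
  refine ⟨fun m => @decide (m ∈ E) (Classical.propDecidable _), fun i => ⟨⟨a (2 * i), ?_, ?_⟩, a (2 * i + 1), ?_, ?_⟩⟩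
  · have := hmem (2 * i)
    rwa [show 2 * i / 2 = i by omega] at this
  · exact (@decide_eq_true_iff (a (2 * i) ∈ E) (Classical.propDecidable _)).2 ⟨i, rfl⟩
  · have := hmem (2 * i + 1)
    rwa [show (2 * i + 1) / 2 = i by omega] at this
  · refine (@decide_eq_false_iff_not (a (2 * i + 1) ∈ E) (Classical.propDecidable _)).2 ?_
    rintro ⟨j, hj⟩
    have h5 : 2 * j = 2 * i + 1 := hmono.injective hj
    omega

theorem exists_spl {A : Set ℕ} (hA : Inf A) : ∃ α, Spl α A := by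
  obtain ⟨α, hα⟩ := exists_split (fun N => {n | N ≤ n ∧ n ∈ A}) fun N => by
    rw [Set.infinite_iff_exists_gt]
    intro M
    obtain ⟨n, hn, h1⟩ := hA (max N (M + 1))
    exact ⟨n, ⟨le_of_max_le_left hn, h1⟩, by omega⟩
  refine ⟨α, fun N => ?_, fun N => ?_⟩
  · obtain ⟨n, ⟨h1, h2⟩, h3⟩ := (hα N).1
    exact ⟨n, h1, h2, h3⟩
  · obtain ⟨n, ⟨h1, h2⟩, h3⟩ := (hα N).2
    exact ⟨n, h1, h2, h3⟩

theorem exists_B (x : ℕ → ℕ) : ∃ α, x ∈ B α := by
  by_cases h : Inf (st x)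
  · obtain ⟨α, hα⟩ := exists_spl h
    exact ⟨α, Or.inr hα⟩
  · exact ⟨fun _ => true, Or.inl h⟩

open Classical in
theorem colorable_three : G.Colorable 3 := by
  have hwf : WellFounded (WellOrderingRel : (ℕ → Bool) → (ℕ → Bool) → Prop) := IsWellFounded.wf
  let m : (ℕ → ℕ) → ℕ → Bool := fun x => hwf.min {α | x ∈ B α} (exists_B x)
  have hm : ∀ x, x ∈ B (m x) := fun x => hwf.min_mem {α | x ∈ B α} (exists_B x)
  refine ⟨SimpleGraph.Coloring.mk (fun x => vl x (m x)) fun {x y} h => ?_⟩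
  have h1 : {α | x ∈ B α} = {α | y ∈ B α} := by
    ext α
    exact B_inv h α
  have h2 : m x = m y := by
    simp only [m]
    congr 1
  have h3 := vl_ne h (m x) (hm x) (by rw [h2]; exact hm y)
  rwa [← h2]

variable {I : Type}

/-- Names for vertices with an infinite set. -/
theorem cover_inf (f : NR I) (U : U0 I) (hf : On U.1 fun x => Inf (st (f.1 x))) :
    ∃ α : ℕ → Bool, On U.1 fun x => Spl α (st (f.1 x)) := by
  classical
  obtain ⟨S, hS, hfS⟩ := f.2.1
  have : Countable {i // i ∈ S} := hS.to_subtype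
  let H : X I ≃ₜ ({i // i ∈ S} → ℕ → Bool) × ({i // ¬ i ∈ S} → ℕ → Bool) :=
    Homeomorph.piEquivPiSubtypeProd (fun i => i ∈ S) fun _ => ℕ → Bool
  let ρ : X I → ({i // i ∈ S} → ℕ → Bool) := fun x => (H x).1
  have hρc : Continuous ρ := continuous_fst.comp H.continuous
  have hρo : IsOpenMap ρ := isOpenMap_fst.comp H.isOpenMap
  have hρf : ∀ x y : X I, ρ x = ρ y → f.1 x = f.1 y := by
    intro x y h
    exact hfS x y fun i hi => congrFun h ⟨i, hi⟩
  obtain ⟨b, hbo, hbn, hb⟩ := exists_base ({i // i ∈ S} → ℕ → Bool)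
  let R : ℕ → ℕ → Set ℕ := fun i N => {m | N ≤ m ∧ ∃ W : Set ({i // i ∈ S} → ℕ → Bool),
    IsOpen W ∧ W.Nonempty ∧ W ⊆ b i ∧ ∀ x, ρ x ∈ W → m ∈ st (f.1 x)}
  have hR : ∀ i, b i ⊆ ρ '' U.1 → ∀ N, (R i N).Infinite := by
    intro i hi N
    have hO : IsOpen (U.1 ∩ ρ ⁻¹' b i) := U.2.1.inter ((hbo i).preimage hρc)
    have hOn : (U.1 ∩ ρ ⁻¹' b i).Nonempty := by
      obtain ⟨y, hy⟩ := hbn i
      obtain ⟨x, hx, rfl⟩ := hi hy
      exact ⟨x, hx, hy⟩
    have h1 : ∀ᶠ x in residual (X I), (∀ n, ∀ᶠ y in 𝓝 x, f.1 y n = f.1 x n) ∧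
        (x ∈ U.1 → Inf (st (f.1 x))) :=
      (eventually_countable_forall.2 (lc_res f)).and hf
    obtain ⟨x, ⟨hxU, hxb⟩, hx1, hx2⟩ := (dense_of_mem_residual h1).inter_open_nonempty _ hO hOn
    rw [Set.infinite_iff_exists_gt]
    intro M
    obtain ⟨m, hm, hmx⟩ := hx2 hxU (max N (M + 1))
    refine ⟨m, ⟨le_of_max_le_left hm, ?_⟩, by omega⟩
    obtain ⟨V, hV, hVo, hxV⟩ := eventually_nhds_iff.1 (hx1 (2 * m))
    refine ⟨ρ '' (V ∩ (U.1 ∩ ρ ⁻¹' b i)), hρo _ (hVo.inter hO), ⟨_, x, ⟨hxV, hxU, hxb⟩, rfl⟩,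
      ?_, ?_⟩
    · rintro _ ⟨y, hy, rfl⟩
      exact hy.2.2
    · rintro y ⟨z, hz, hzy⟩
      rw [← hρf z y hzy]
      change f.1 z (2 * m) ≠ 0
      rw [hV z hz.1]
      exact hmx
  obtain ⟨α, hα⟩ := exists_split
    (fun j => if b j.unpair.1 ⊆ ρ '' U.1 then R j.unpair.1 j.unpair.2 else Set.univ) (by
    intro j
    split_ifs with h
    · exact hR _ h _
    · exact Set.infinite_univ)
  have key : ∀ t : Bool, (∀ i, b i ⊆ ρ '' U.1 → ∀ N, ∃ m ∈ R i N, α m = t) →
      On U.1 fun x => ∀ N, ∃ n, N ≤ n ∧ n ∈ st (f.1 x) ∧ α n = t := by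
    intro t ht
    have h2 : ∀ N, ∀ᶠ x in residual (X I), x ∈ U.1 → ∃ n, N ≤ n ∧ n ∈ st (f.1 x) ∧ α n = t := by
      intro N
      have h3 : IsOpen {x : X I | ∀ᶠ y in 𝓝 x, ∃ n, N ≤ n ∧ n ∈ st (f.1 y) ∧ α n = t} :=
        isOpen_setOfPred_eventually_nhds
      have h4 : Dense ({x : X I | ∀ᶠ y in 𝓝 x, ∃ n, N ≤ n ∧ n ∈ st (f.1 y) ∧ α n = t} ∪
          (closure U.1)ᶜ) := by
        rw [dense_iff_inter_open]
        intro V hV hVn
        by_cases hVU : (V ∩ U.1).Nonempty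
        · obtain ⟨i, hi⟩ := hb _ (hρo _ (hV.inter U.2.1)) (hVU.image ρ)
          obtain ⟨m, ⟨hmN, W, hW, hWn, hWb, hWf⟩, hm⟩ := ht i
            (hi.trans (Set.image_mono Set.inter_subset_right)) N
          obtain ⟨w, hw⟩ := hWn
          obtain ⟨x, hx, rfl⟩ := hi (hWb hw)
          refine ⟨x, hx.1, Or.inl ?_⟩
          exact eventually_of_mem ((hW.preimage hρc).mem_nhds hw) fun y hy =>
            ⟨m, hmN, hWf y hy, hm⟩
        · obtain ⟨x, hx⟩ := hVn
          refine ⟨x, hx, Or.inr fun h5 => hVU ?_⟩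
          exact mem_closure_iff.1 h5 V hV hx
      have h5 := residual_of_dense_open (h3.union isClosed_closure.isOpen_compl) h4
      filter_upwards [h5] with x hx hxU
      rcases hx with hx | hx
      · exact hx.self_of_nhds
      · exact absurd (subset_closure hxU) hx
    filter_upwards [eventually_countable_forall.2 h2] with x hx hxU N
    exact hx N hxU
  have h6 := key true fun i hi N => by
    have h7 := (hα (Nat.pair i N)).1
    simp only [Nat.unpair_pair, if_pos hi] at h7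
    exact h7
  have h8 := key false fun i hi N => by
    have h7 := (hα (Nat.pair i N)).2
    simp only [Nat.unpair_pair, if_pos hi] at h7
    exact h7
  refine ⟨α, ?_⟩
  filter_upwards [h6, h8] with x h9 h10 hxU
  exact ⟨h9 hxU, h10 hxU⟩

/-- The colourings cover all names. -/
theorem cover (I : Type) (f : NR I) (U : U0 I) :
    ∃ (α : ℕ → Bool) (W : U0 I), W.1 ⊆ U.1 ∧ On W.1 fun x => f.1 x ∈ B α := by
  rcases dec1 f (measurableSet_setOfPred.2 meas_inf.not) U with ⟨W, h1, h2⟩ | h0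
  · exact ⟨fun _ => true, W, h1, h2.mono fun x hx hxW => Or.inl (hx hxW)⟩
  · obtain ⟨α, hα⟩ := cover_inf f U (h0.mono fun x hx hxU => by
      by_contra h
      exact hx hxU h)
    exact ⟨α, U, subset_rfl, hα.mono fun x hx hxU => Or.inr (hx hxU)⟩

/-- The graph with its partial colourings. -/
noncomputable def fam : Fam (ℕ → Bool) 3 where
  G := G
  borel := borel_G
  B := B
  co α x := vl x α
  meas_B := meas_B
  meas_co := meas_vl
  inv := B_inv
  ne := vl_ne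
  cover := cover

end Pool.Agent.Y588.KF
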