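import Pool.Agent.Y588.KF.Base
import Pool.Agent.W910.BG.T_CONF
import Pool.Agent.W910.BG.T_ULT

/-!
# Flips, and no ultrafilters
-/

set_option autoImplicit false
set_option linter.unusedSectionVars false

namespace Pool.Agent.Y588.KF

open Topology Filter Pool.Agent.W868 Pool.Agent.W868.PName Pool.Agent.W910.SY Pool.Agent.W910.BG
open ZFSet (pair)

variable {I : Type}

instance : Subsingleton (D I (⊤ : SimpleGraph (ℕ → ℕ))) := by
  have h : ∀ r : D I (⊤ : SimpleGraph (ℕ → ℕ)), r.1 = ∅ := by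
    intro r
    refine Set.eq_empty_iff_forall_notMem.2 fun t ht => ?_
    have h1 := r.2.1 t ht t ht true Set.univ isOpen_univ (Eventually.of_forall fun x _ => by
      change WP ⊤ true (t.1.1 x) (t.1.1 x)
      generalize t.1.1 x = y
      set a : ℕ → ℕ := fun n => y n + 1
      set b : ℕ → ℕ := fun n => y n + 2
      have h1 : (⊤ : SimpleGraph (ℕ → ℕ)).Adj y a := by
        rw [SimpleGraph.top_adj]
        intro h
        have := congrFun h 0
        simp [a] at this
      have h2 : (⊤ : SimpleGraph (ℕ → ℕ)).Adj a b := by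
        rw [SimpleGraph.top_adj]
        intro h
        have := congrFun h 0
        simp [a, b] at this
      have h3 : (⊤ : SimpleGraph (ℕ → ℕ)).Adj b y := by
        rw [SimpleGraph.top_adj]
        intro h
        have := congrFun h 0
        simp [b] at this
      exact ⟨.cons h1 (.cons h2 (.cons h3 .nil)), by simp⟩)
    refine on_false (U := (⊤ : U0 I)) (h1.mono fun x hx _ => ?_)
    have h2 : (t.2.1 x).xor (t.2.1 x) = true := hx trivial
    simp at h2
  exact ⟨fun a b => Subtype.ext ((h a).trans (h b).symm)⟩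

open Classical in
/-- The flip of the coordinate `β` by `s`. -/
noncomputable def fl (β : I) (s : ℕ → Bool) : X I ≃ₜ X I :=
  T_CONF.invo (fun x i n => if i = β then (x i n).xor (s n) else x i n) (by
    refine continuous_pi fun i => continuous_pi fun n => ?_
    by_cases h : i = β
    · simp only [if_pos h]
      have h1 : Continuous fun b : Bool => b.xor (s n) := continuous_of_discreteTopology
      have h2 : Continuous fun x : X I => x i n := by fun_prop
      exact h1.comp h2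
    · simp only [if_neg h]
      fun_prop) (by
    intro x
    funext i n
    by_cases h : i = β
    · simp [if_pos h]
    · simp [if_neg h])

open Classical in
theorem fl_symm (β : I) (s : ℕ → Bool) (x : X I) (n : ℕ) :
    (fl β s).symm x β n = (x β n).xor (s n) := by
  change (if β = β then (x β n).xor (s n) else x β n) = _
  rw [if_pos rfl]

open Classical in
theorem fl_apply (β : I) (s : ℕ → Bool) (x : X I) (n : ℕ) :
    fl β s x β n = (x β n).xor (s n) := by
  change (if β = β then (x β n).xor (s n) else x β n) = _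
  rw [if_pos rfl]

open Classical in
theorem fl_ne (β : I) (s : ℕ → Bool) (x : X I) {i : I} (hi : i ≠ β) : fl β s x i = x i := by
  funext n
  change (if i = β then (x i n).xor (s n) else x i n) = _
  rw [if_neg hi]

theorem fl_mem {β : I} {S : Set I} (hβ : β ∉ S) (s : ℕ → Bool) : fl β s ∈ Fx S := by
  intro x i hi
  exact fl_ne β s x fun h => hβ (h ▸ hi)

theorem fl_fl (β : I) (s : ℕ → Bool) (x : X I) : fl β s (fl β s x) = x :=
  (fl β s).apply_symm_apply x

/-- Conditions that do not change under flips. -/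
theorem flip_cond (q : P I) (β : I) : ∃ q' ≤ q, ∃ N : ℕ, ∀ t : ℕ → Bool,
    (∀ n < N, t n = false) → smQ (fl β t) q' = q' := by
  classical
  obtain ⟨p, hp⟩ := q.2.2.2
  obtain ⟨s, N, hs⟩ := T_CONF.cyl q.2.2.1 hp
  have ho : IsOpen {x : X I | ∀ a ∈ s, ∀ n < N, x a n = p a n} := by
    have h1 : {x : X I | ∀ a ∈ s, ∀ n < N, x a n = p a n} =
        ⋂ a ∈ s, ⋂ n ∈ Finset.range N, {x : X I | x a n = p a n} := by
      ext x
      simp
    rw [h1]
    refine isOpen_biInter_finset fun a _ => isOpen_biInter_finset fun n _ => ?_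
    have h2 : Continuous fun x : X I => x a n := by fun_prop
    exact (isOpen_discrete {p a n}).preimage h2
  let W : U0 I := ⟨{x : X I | ∀ a ∈ s, ∀ n < N, x a n = p a n}, ho, p, fun _ _ _ _ => rfl⟩
  refine ⟨(q.1, W), ⟨le_rfl, fun x hx => hs x hx⟩, N, fun t ht => ?_⟩
  have hW : ∀ x ∈ W.1, fl β t x ∈ W.1 := by
    intro x hx a ha n hn
    by_cases hab : a = β
    · subst hab
      rw [fl_apply, ht n hn, Bool.xor_false]
      exact hx a ha n hn
    · rw [fl_ne β t x hab]
      exact hx a ha n hn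
  refine Prod.ext (Subsingleton.elim _ _) (Subtype.ext ?_)
  change fl β t '' W.1 = W.1
  apply Set.Subset.antisymm
  · rintro _ ⟨x, hx, rfl⟩
    exact hW x hx
  · intro x hx
    exact ⟨fl β t x, hW x hx, fl_fl β t x⟩

/-- Two decided coordinates. -/
theorem two_dec {π : Pkg (P I)} {B₀ B₁ : X I → ℕ → Bool} (h₀ : ∀ n, Continuous fun x => B₀ x n)
    (h₁ : ∀ n, Continuous fun x => B₁ x n) {n : ℕ}
    (k₀ : Sys.nm (P I) (T_ULT.dn ⊤ B₀ n) ∈ π.N) (k₁ : Sys.nm (P I) (T_ULT.dn ⊤ B₁ n) ∈ π.N) :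
    ∃ x : X I, (nat n ∈ π.val (setN ⊤ B₀) ↔ B₀ x n = true) ∧
      (nat n ∈ π.val (setN ⊤ B₁) ↔ B₁ x n = true) := by
  obtain ⟨i₀, -, c₀, hc₀⟩ := T_ULT.exists_const h₀ π n 0 k₀
  obtain ⟨i₁, hi₁, c₁, hc₁⟩ := T_ULT.exists_const h₁ π n i₀ k₁
  obtain ⟨x, hx⟩ := (π.g i₁).2.2.2
  refine ⟨x, ?_, ?_⟩
  · rw [T_ULT.nat_mem_setN π hc₀, hc₀ x ((π.g_anti hi₁).2 hx)]
  · rw [T_ULT.nat_mem_setN π hc₁, hc₁ x hx]

theorem exists_out [Uncountable I] {S : Set I} (hS : S.Countable) : ∃ β : I, β ∉ S := by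
  by_contra h
  push Not at h
  have h1 : (Set.univ : Set I).Countable := hS.mono fun b _ => h b
  exact Uncountable.not_countable (α := I) (Set.countable_univ_iff.1 h1)

/-- There is no nonprincipal ultrafilter. -/
theorem no_ult [Uncountable I] (π : Pkg (P I)) (U : PName (P I)) (hU : U ∈ π.N)
    (hHS : (sys I ⊤).HS U) : ¬ IsUlt π.W (π.val U) := by
  intro hult
  have hRπ : T_ULT.RU U π := ⟨hult.2.2.1, hult.2.1, hult.2.2.2.2⟩
  obtain ⟨k, hk⟩ := forcing_theorem (T_ULT.ndfn_R U) π (by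
    rintro x (rfl | rfl)
    · exact hU
    · exact π.om) hRπ
  obtain ⟨H, ⟨S, hS, rfl⟩, hfix⟩ := hHS.sym
  have hfix' : ∀ θ ∈ (Fx S : Subgroup (X I ≃ₜ X I)), ∀ p : P I, Feq (act (smQ θ) U) U p :=
    fun θ hθ p => hfix θ hθ p
  obtain ⟨β, hβ⟩ := exists_out hS
  set A : X I → ℕ → Bool := fun x n => x β n with hA
  have key : ∀ (q₁ : P I), q₁ ≤ π.g k → ∀ e : Bool,
      (e = false → Fmem (setN ⊤ A) U q₁) →
      (e = true → ∀ q ≤ q₁, ¬ Fmem (setN ⊤ A) U q) → False := by
    intro q₁ hq₁ e he1 he2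
    obtain ⟨q, hqq, N, hN⟩ := flip_cond q₁ β
    set θ := fl β (fun n => decide (N ≤ n)) with hθd
    have hθ : θ ∈ (Fx S : Subgroup (X I ≃ₜ X I)) := fl_mem hβ _
    have hθq : smQ θ q = q := hN _ fun n hn => by simpa using hn
    set B₁ : X I → ℕ → Bool := fun x => A (θ.symm x) with hB₁
    have hc1 : e = false → Fmem (setN ⊤ B₁) U q := by
      intro h
      have h1 := (fmem_act' (e := smQ θ) ((he1 h).mono hqq))
      rw [hθq] at h1
      exact fmem_congr (T_NAM.feq_act_setN θ A q) (hfix' θ hθ q) h1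
    have hc2 : e = true → ∀ r ≤ q, ¬ Fmem (setN ⊤ B₁) U r := by
      intro h r hr h1
      have h2 : Fmem (act (smQ θ) (setN ⊤ A)) (act (smQ θ) U) r :=
        fmem_congr (T_NAM.feq_act_setN θ A r).symm (hfix' θ hθ r).symm h1
      rw [← OrderIso.apply_symm_apply (smQ θ) r, fmem_act] at h2
      refine he2 h _ ?_ h2
      refine le_trans ?_ hqq
      rw [OrderIso.symm_apply_le, hθq]
      exact hr
    obtain ⟨π', hπ', h0⟩ := exists_pkg' (({U, setN ⊤ A, setN ⊤ B₁} : Set (PName (P I))) ∪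
      ((Set.range fun n => Sys.nm (P I) (T_ULT.dn ⊤ A n)) ∪
          (Set.range fun n => Sys.nm (P I) (T_ULT.dn ⊤ B₁ n))))
      ((Set.toFinite _).countable.union ((Set.countable_range _).union
        (Set.countable_range _))) q
    have mU : U ∈ π'.N := hπ' (Or.inl (Or.inl rfl))
    have mA : setN ⊤ A ∈ π'.N := hπ' (Or.inl (Or.inr (Or.inl rfl)))
    have mB₁ : setN ⊤ B₁ ∈ π'.N := hπ' (Or.inl (Or.inr (Or.inr rfl)))
    have kA : ∀ n, Sys.nm (P I) (T_ULT.dn ⊤ A n) ∈ π'.N := fun n => hπ' (Or.inr (Or.inl ⟨n, rfl⟩))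
    have k₁ : ∀ n, Sys.nm (P I) (T_ULT.dn ⊤ B₁ n) ∈ π'.N :=
      fun n => hπ' (Or.inr (Or.inr ⟨n, rfl⟩))
    have hR' : T_ULT.RU U π' := hk π' (by
      rintro x (rfl | rfl)
      · exact mU
      · exact π'.om) ⟨0, by
        rw [h0]
        exact hqq.trans hq₁⟩
    have cA : ∀ n, Continuous fun x => A x n := fun n =>
      (continuous_apply n).comp (continuous_apply β)
    have c₁ : ∀ n, Continuous fun x => B₁ x n := fun n => (cA n).comp θ.symm.continuous
    have hset : ∀ B : X I → ℕ → Bool, setN ⊤ B ∈ π'.N → (e = false → Fmem (setN ⊤ B) U q) →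
        (e = true → ∀ r ≤ q, ¬ Fmem (setN ⊤ B) U r) →
        ∃ T ∈ π'.val U, T ⊆ ZFSet.omega ∧
          ∀ n, nat n ∈ T → (nat n ∈ π'.val (setN ⊤ B) ↔ e = false) := by
      intro B hB h1 h2
      cases e with
      | false =>
        refine ⟨π'.val (setN ⊤ B), ?_, T_ULT.val_setN_sub π',
          fun n hn => ⟨fun _ => rfl, fun _ => hn⟩⟩
        rw [π'.val_mem_iff hB mU]
        refine ⟨0, ?_⟩
        rw [h0]
        exact h1 rfl
      | true =>
        have h3 : π'.val (setN ⊤ B) ∉ π'.val U := by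
          rw [π'.val_mem_iff hB mU]
          rintro ⟨m, hm⟩
          refine h2 rfl _ ?_ hm
          rw [← h0]
          exact π'.g_anti (Nat.zero_le m)
        refine ⟨ZFSet.omega \ π'.val (setN ⊤ B),
          (hR'.2.2 _ (π'.val_mem_W hB) (T_ULT.val_setN_sub π')).resolve_left h3,
          fun z hz => (ZFSet.mem_sdiff.1 hz).1, fun n hn => ?_⟩
        simp only [(ZFSet.mem_sdiff.1 hn).2, Bool.true_eq_false]
    obtain ⟨T₀, hT₀, ho, m₀⟩ := hset A mA (fun h => (he1 h).mono hqq)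
      (fun h r hr => he2 h r (hr.trans hqq))
    obtain ⟨T₁, hT₁, -, m₁⟩ := hset B₁ mB₁ hc1 hc2
    refine hR'.2.1 _ (hR'.1 _ hT₀ _ hT₁) (nat N) (mem_omega_iff.2 ⟨N, rfl⟩) ?_
    intro z hz
    rw [ZFSet.mem_inter] at hz
    obtain ⟨z₀, z₁⟩ := hz
    obtain ⟨n, rfl⟩ := mem_omega_iff.1 (ho z₀)
    by_contra hn
    rw [T_ULT.nat_mem_nat, not_lt] at hn
    obtain ⟨x, hx0, hx1⟩ := two_dec cA c₁ (kA n) (k₁ n)
    have f₀ := hx0.symm.trans (m₀ n z₀)
    have f₁ := hx1.symm.trans (m₁ n z₁)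
    have h3 : B₁ x n = (x β n).xor true := by
      change (fl β (fun n => decide (N ≤ n))).symm x β n = _
      rw [fl_symm]
      simp [hn]
    rw [h3] at f₁
    change x β n = true ↔ _ at f₀
    revert f₀ f₁
    cases x β n <;> cases e <;> simp
  by_cases hcase : ∃ q₁ ≤ π.g k, Fmem (setN ⊤ A) U q₁
  · obtain ⟨q₁, hq₁, h1⟩ := hcase
    exact key q₁ hq₁ false (fun _ => h1) (fun h => by simp at h)
  · push Not at hcase
    exact key _ le_rfl true (fun h => by simp at h) (fun _ => hcase)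

end Pool.Agent.Y588.KF
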