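import Mathlib

/-!
# The 3-colourings of powers of the complete graph with three vertices

(Greenwell and Lovász) They are given by ultrafilters.
-/

set_option autoImplicit false

namespace Pool.Agent.Y588.KF

variable {S : Type*}

open Classical in
/-- The function that is `i` on `T` and `j` outside. -/
noncomputable def el (T : Set S) (i j : Fin 3) : S → Fin 3 := fun n => if n ∈ T then i else j

theorem el_univ (i j : Fin 3) : el (Set.univ : Set S) i j = fun _ => i := by
  funext n
  simp [el]

theorem el_compl (T : Set S) (i j : Fin 3) : el Tᶜ i j = el T j i := by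
  funext n
  by_cases h : n ∈ T <;> simp [el, h]

section

variable (c : (S → Fin 3) → Fin 3) (hc : ∀ φ ψ : S → Fin 3, (∀ n, φ n ≠ ψ n) → c φ ≠ c ψ)
  (h0 : ∀ i, c (fun _ => i) = i)

include hc h0

theorem el_val (T : Set S) {i j : Fin 3} (h : i ≠ j) : c (el T i j) = i ∨ c (el T i j) = j := by
  obtain ⟨k, hki, hkj⟩ : ∃ k : Fin 3, k ≠ i ∧ k ≠ j := by
    revert i j
    decide
  have h1 := hc (el T i j) (fun _ => k) fun n => by
    unfold el
    split_ifs
    · exact hki.symm
    · exact hkj.symm
  rw [h0] at h1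
  revert h1 h hki hkj
  generalize c (el T i j) = u
  revert i j k u
  decide

theorem el_swap (T : Set S) {i j : Fin 3} (h : i ≠ j) (h1 : c (el T i j) = i) :
    c (el T j i) = j := by
  have h2 := hc (el T i j) (el T j i) fun n => by
    unfold el
    split_ifs
    · exact h
    · exact h.symm
  rcases el_val c hc h0 T h.symm with h3 | h3
  · exact h3
  · exact absurd (h1.trans h3.symm) h2

theorem el_rot (T T' : Set S) (hT : T ⊆ T') {i j k : Fin 3} (hij : i ≠ j) (hki : k ≠ i)
    (hkj : k ≠ j) (h1 : c (el T i j) = i) : c (el T' k i) = k := by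
  have h2 := hc (el T i j) (el T' k i) fun n => by
    unfold el
    by_cases h3 : n ∈ T
    · rw [if_pos h3, if_pos (hT h3)]
      exact hki.symm
    · rw [if_neg h3]
      split_ifs
      · exact hkj.symm
      · exact hij.symm
  rcases el_val c hc h0 T' hki with h3 | h3
  · exact h3
  · exact absurd (h1.trans h3.symm) h2

/-- The sets that decide the colour. -/
def Wi (T : Set S) : Prop := c (el T 0 1) = 0

theorem wi_all {T : Set S} (h : Wi c T) : ∀ i j : Fin 3, i ≠ j → c (el T i j) = i := by
  have h01 : c (el T 0 1) = 0 := h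
  have h20 := el_rot c hc h0 T T subset_rfl (by decide) (by decide) (by decide) (k := 2) h01
  have h12 := el_rot c hc h0 T T subset_rfl (by decide) (by decide) (by decide) (k := 1) h20
  have h10 := el_swap c hc h0 T (by decide) h01
  have h02 := el_swap c hc h0 T (by decide) h20
  have h21 := el_swap c hc h0 T (by decide) h12
  intro i j hij
  fin_cases i <;> fin_cases j <;> first | exact absurd rfl hij | assumption

theorem wi_of {T : Set S} {i j : Fin 3} (hij : i ≠ j) (h : c (el T i j) = i) : Wi c T := by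
  have e12 : c (el T 1 2) = 1 → c (el T 0 1) = 0 := fun h =>
    el_rot c hc h0 T T subset_rfl (by decide) (by decide) (by decide) (k := 0) h
  have e20 : c (el T 2 0) = 2 → c (el T 0 1) = 0 := fun h =>
    e12 (el_rot c hc h0 T T subset_rfl (by decide) (by decide) (by decide) (k := 1) h)
  unfold Wi
  fin_cases i <;> fin_cases j
  · exact absurd rfl hij
  · exact h
  · exact e20 (el_swap c hc h0 T (by decide) h)
  · exact el_swap c hc h0 T (by decide) h
  · exact absurd rfl hij
  · exact e12 h
  · exact e20 h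
  · exact e12 (el_swap c hc h0 T (by decide) h)
  · exact absurd rfl hij

theorem wi_mono {T T' : Set S} (hT : T ⊆ T') (h : Wi c T) : Wi c T' :=
  wi_of c hc h0 (by decide) (el_rot c hc h0 T T' hT (i := 0) (j := 1) (k := 2) (by decide)
    (by decide) (by decide) h)

theorem wi_compl {T : Set S} : Wi c Tᶜ ↔ ¬ Wi c T := by
  have h1 : Wi c Tᶜ ↔ c (el T 1 0) = 0 := by
    rw [Wi, el_compl]
  rw [h1]
  constructor
  · intro h2 h3
    have h4 := wi_all c hc h0 h3 1 0 (by decide)
    rw [h2] at h4
    exact absurd h4 (by decide)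
  · intro h2
    rcases el_val c hc h0 T (i := 1) (j := 0) (by decide) with h3 | h3
    · exact absurd (wi_of c hc h0 (by decide) h3) h2
    · exact h3

/-- The set where a function has its colour as value decides. -/
theorem wi_fiber (φ : S → Fin 3) : Wi c {n | φ n = c φ} := by
  obtain ⟨j, hj⟩ : ∃ j : Fin 3, j ≠ c φ := by
    generalize c φ = i
    revert i
    decide
  have h1 := hc φ (el {n | φ n = c φ} j (c φ)) fun n => by
    unfold el
    by_cases h : φ n = c φ
    · rw [if_pos (show n ∈ {n | φ n = c φ} from h), h]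
      exact hj.symm
    · rw [if_neg (show ¬ n ∈ {n | φ n = c φ} from h)]
      exact h
  rcases el_val c hc h0 {n | φ n = c φ} hj with h2 | h2
  · exact wi_of c hc h0 hj h2
  · exact absurd h2.symm h1

theorem wi_inter {T T' : Set S} (h : Wi c T) (h' : Wi c T') : Wi c (T ∩ T') := by
  classical
  let φ : S → Fin 3 := fun n => if n ∈ T then (if n ∈ T' then 0 else 1) else 2
  have h1 := wi_fiber c hc h0 φ
  have h2 : c φ = 0 ∨ c φ = 1 ∨ c φ = 2 := by
    generalize c φ = i
    revert i
    decide
  rcases h2 with h2 | h2 | h2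
  · refine wi_mono c hc h0 ?_ h1
    intro n hn
    change φ n = c φ at hn
    rw [h2] at hn
    by_cases h3 : n ∈ T
    · by_cases h4 : n ∈ T'
      · exact ⟨h3, h4⟩
      · simp [φ, h3, h4] at hn
    · simp [φ, h3] at hn
  · refine absurd h' ((wi_compl c hc h0).1 (wi_mono c hc h0 ?_ h1))
    intro n hn h4
    change φ n = c φ at hn
    rw [h2] at hn
    by_cases h3 : n ∈ T
    · simp [φ, h3, h4] at hn
    · simp [φ, h3] at hn
  · refine absurd h ((wi_compl c hc h0).1 (wi_mono c hc h0 ?_ h1))
    intro n hn h3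
    change φ n = c φ at hn
    rw [h2] at hn
    by_cases h4 : n ∈ T'
    · simp [φ, h3, h4] at hn
    · simp [φ, h3, h4] at hn

/-- If a finite set decides then an element decides. -/
theorem exists_point {d : Set S} (hd : d.Finite) (h : Wi c d) : ∃ n ∈ d, ∀ φ, c φ = φ n := by
  let F : Filter S :=
    { sets := {T | Wi c T}
      univ_sets := by
        change Wi c Set.univ
        rw [Wi, el_univ, h0]
      sets_of_superset := fun h1 h2 => wi_mono c hc h0 h2 h1
      inter_sets := fun h1 h2 => wi_inter c hc h0 h1 h2 }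
  let U : Ultrafilter S := Ultrafilter.ofComplNotMemIff F fun T => by
    change ¬ Wi c Tᶜ ↔ Wi c T
    rw [wi_compl c hc h0, not_not]
  have hU : ∀ T, T ∈ U ↔ Wi c T := fun T => Iff.rfl
  obtain ⟨n, hn, hUn⟩ := Ultrafilter.eq_pure_of_finite_mem hd ((hU d).2 h)
  refine ⟨n, hn, fun φ => ?_⟩
  have h1 := (hU _).2 (wi_fiber c hc h0 φ)
  rw [hUn] at h1
  exact (show φ n = c φ from h1).symm

end

/-- A 3-colouring of the graph of all functions to `3` in which functions are adjacent if they
are different everywhere, and a finite set outside of which two functions with the same colour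
differ: then some element of the set determines the colour. -/
theorem gl (c : (S → Fin 3) → Fin 3) (hc : ∀ φ ψ : S → Fin 3, (∀ n, φ n ≠ ψ n) → c φ ≠ c ψ)
    {d : Set S} (hd : d.Finite) {φ ψ : S → Fin 3} (h1 : ∀ n, n ∉ d → φ n ≠ ψ n)
    (h2 : c φ = c ψ) :
    ∃ n ∈ d, ∃ π : Fin 3 → Fin 3, Function.Injective π ∧ ∀ φ, c φ = π (φ n) := by
  let π : Fin 3 → Fin 3 := fun i => c fun _ => i
  have hπ : Function.Injective π := by
    intro i j hij
    by_contra h
    exact hc (fun _ => i) (fun _ => j) (fun _ => h) hij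
  have hπ' : Function.Surjective π := Finite.surjective_of_injective hπ
  let ρ : Fin 3 → Fin 3 := Function.surjInv hπ'
  have hρ : ∀ i, π (ρ i) = i := Function.surjInv_eq hπ'
  have hρi : Function.Injective ρ := Function.injective_surjInv hπ'
  have hρπ : ∀ i, ρ (π i) = i := fun i => hπ (hρ _)
  let c' : (S → Fin 3) → Fin 3 := fun φ => ρ (c φ)
  have hc' : ∀ φ ψ : S → Fin 3, (∀ n, φ n ≠ ψ n) → c' φ ≠ c' ψ := fun φ ψ h h' =>
    hc φ ψ h (hρi h')
  have h0 : ∀ i, c' (fun _ => i) = i := hρπ
  have hW : Wi c' d := by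
    by_contra h3
    have h4 := (wi_compl c' hc' h0).2 h3
    have h5 := wi_inter c' hc' h0 (wi_inter c' hc' h0 (wi_fiber c' hc' h0 φ)
      (wi_fiber c' hc' h0 ψ)) h4
    have h6 : ({n | φ n = c' φ} ∩ {n | ψ n = c' ψ} ∩ dᶜ : Set S) = ∅ := by
      refine Set.eq_empty_iff_forall_notMem.2 ?_
      rintro n ⟨⟨h7, h8⟩, h9⟩
      refine h1 n h9 ?_
      change φ n = c' φ at h7
      change ψ n = c' ψ at h8
      rw [h7, h8]
      exact congrArg ρ h2
    rw [h6] at h5
    have h7 : Wi c' (Set.univ : Set S) := wi_mono c' hc' h0 (Set.empty_subset _) h5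
    rw [← Set.compl_empty] at h7
    exact (wi_compl c' hc' h0).1 h7 h5
  obtain ⟨n, hn, h3⟩ := exists_point c' hc' h0 hd hW
  refine ⟨n, hn, π, hπ, fun φ => ?_⟩
  rw [← h3 φ]
  exact (hρ _).symm

end Pool.Agent.Y588.KF
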