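import Pool.Agent.Y588.KF.Cat

/-!
# Borel functions that are constant on a comeagre subset of a basic open set
-/

set_option autoImplicit false

namespace Pool.Agent.Y588.KF

open Topology Filter

theorem ev_of_meagre {X : Type*} [TopologicalSpace X] {s : Set X} (h : IsMeagre s) :
    ∀ᶠ y in residual X, y ∉ s := h

/-- The function `v` is constant on a comeagre subset of the basic open set given by `l`. -/
def GCon (v : (ℕ → Bool) → ℕ → ℕ) (l : List Bool) : Prop :=
  ∀ k, ∃ m, IsMeagre ({z | v z k ≠ m} ∩ Cl l)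

theorem meas_gcon {X : Type*} [MeasurableSpace X] {v : X → (ℕ → Bool) → ℕ → ℕ}
    (hv : Measurable fun p : X × (ℕ → Bool) => v p.1 p.2) (l : List Bool) :
    MeasurableSet {x | GCon (v x) l} := by
  have h1 : {x | GCon (v x) l} = ⋂ k, ⋃ m, {x | IsMeagre ({z | (x, z) ∈
      {p : X × (ℕ → Bool) | v p.1 p.2 k = m}ᶜ} ∩ Cl l)} := by
    ext x
    simp only [GCon, Set.mem_iInter, Set.mem_iUnion, Set.mem_ofPred_eq]
    exact Iff.rfl
  rw [h1]
  refine MeasurableSet.iInter fun k => MeasurableSet.iUnion fun m => meas_cat ?_ l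
  refine MeasurableSet.compl ?_
  exact ((measurable_pi_apply k).comp hv) (measurableSet_singleton m)

theorem gcon_of_countable {Y : Type*} (v : (ℕ → Bool) → Y) (e : Y → ℕ → ℕ)
    (hv : Measurable fun z => e (v z)) (hc : (Set.range v).Countable) :
    ∃ l, GCon (fun z => e (v z)) l := by
  have h1 : ∃ y, ¬ IsMeagre {z | e (v z) = e y} := by
    by_contra h2
    push Not at h2
    refine not_meagre_cy (fun _ => true) 0 ((isMeagre_biUnion hc fun y _ => h2 y).mono ?_)
    intro z _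
    exact Set.mem_biUnion (Set.mem_range_self z) rfl
  obtain ⟨y, hy⟩ := h1
  obtain ⟨x, n, hx⟩ := bp (hv (measurableSet_singleton (e y))) hy
  refine ⟨seg x n, fun k => ⟨e y k, hx.mono ?_⟩⟩
  rw [cl_seg]
  rintro z ⟨h2, h3⟩
  refine ⟨h3, fun h4 => h2 ?_⟩
  have h5 : e (v z) = e y := h4
  change e (v z) k = e y k
  rw [h5]

/-- The intersection of two sets. -/
def an (T z : ℕ → Bool) : ℕ → Bool := fun n => T n && z n

theorem an_cont : Continuous fun p : (ℕ → Bool) × (ℕ → Bool) => an p.1 p.2 := by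
  refine continuous_pi fun n => ?_
  have h1 : Continuous fun q : Bool × Bool => (q.1 && q.2) := continuous_of_discreteTopology
  have h2 : Continuous fun p : (ℕ → Bool) × (ℕ → Bool) => (p.1 n, p.2 n) := by fun_prop
  exact h1.comp h2

theorem an_open : IsOpenMap fun p : (ℕ → Bool) × (ℕ → Bool) => an p.1 p.2 := by
  intro O hO
  rw [isOpen_iff_forall_mem_open]
  rintro _ ⟨⟨T, z⟩, hTz, rfl⟩
  obtain ⟨U, V, hU, hV, hTU, hzV, hUV⟩ := isOpen_prod_iff.1 hO T z hTz
  obtain ⟨n1, hn1⟩ := exists_cy hU hTU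
  obtain ⟨n2, hn2⟩ := exists_cy hV hzV
  refine ⟨Cy (an T z) (max n1 n2), ?_, cy_open _ _, self_mem_cy _ _⟩
  intro w hw
  refine ⟨(fun i => if i < max n1 n2 then T i else true,
    fun i => if i < max n1 n2 then z i else w i), hUV ⟨hn1 fun i hi => ?_, hn2 fun i hi => ?_⟩, ?_⟩
  · change (if i < max n1 n2 then T i else true) = T i
    rw [if_pos (by omega)]
  · change (if i < max n1 n2 then z i else w i) = z i
    rw [if_pos (by omega)]
  · funext i
    change ((if i < max n1 n2 then T i else true) && if i < max n1 n2 then z i else w i) = w i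
    by_cases hi : i < max n1 n2
    · rw [if_pos hi, if_pos hi]
      exact (hw i hi).symm
    · rw [if_neg hi, if_neg hi, Bool.true_and]

theorem gcon_an {v : (ℕ → Bool) → ℕ → ℕ} (hv : Measurable v)
    (h : ¬ IsMeagre {T : ℕ → Bool | ∃ l, GCon (fun z => v (an T z)) l}) : ∃ l, GCon v l := by
  have han : Measurable fun p : (ℕ → Bool) × (ℕ → Bool) => an p.1 p.2 := an_cont.measurable
  obtain ⟨l, hl⟩ : ∃ l, ¬ IsMeagre {T : ℕ → Bool | GCon (fun z => v (an T z)) l} := by
    by_contra h1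
    push Not at h1
    refine h ((isMeagre_iUnion h1).mono ?_)
    rintro T ⟨l, hl⟩
    exact Set.mem_iUnion.2 ⟨l, hl⟩
  obtain ⟨t, n0, ht⟩ := bp (meas_gcon (v := fun T z => v (an T z)) (hv.comp han) l) hl
  by_contra hcon
  push Not at hcon
  set N0 := max n0 l.length with hN0
  set w : ℕ → Bool := an t (ext l) with hw
  have h1 := hcon (seg w N0)
  unfold GCon at h1
  push Not at h1
  obtain ⟨k, hk⟩ := h1
  rw [cl_seg] at hk
  obtain ⟨m1, hm1⟩ : ∃ m, ¬ IsMeagre ({z | v z k = m} ∩ Cy w N0) := by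
    by_contra h2
    push Not at h2
    refine not_meagre_cy w N0 ((isMeagre_iUnion h2).mono ?_)
    intro z hz
    exact Set.mem_iUnion.2 ⟨v z k, rfl, hz⟩
  have hvk : Measurable fun z => v z k := (measurable_pi_apply k).comp hv
  obtain ⟨β1, N1, hβ1⟩ := bp ((hvk (measurableSet_singleton m1)).inter
    (cy_open w N0).measurableSet) hm1
  have hs1 := sub_of_meagre Set.inter_subset_right hβ1
  obtain ⟨β2, N2, hβ2⟩ := bp (((hvk (measurableSet_singleton m1)).compl).inter
    (cy_open w N0).measurableSet) (hk m1)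
  have hs2 := sub_of_meagre Set.inter_subset_right hβ2
  have hr1 : ∀ᶠ y in residual (ℕ → Bool), y ∈ Cy β1 N1 → v y k = m1 :=
    (ev_of_meagre hβ1).mono fun y hy hyC => by
      by_contra h2
      exact hy ⟨hyC, fun h3 => h2 h3.1⟩
  have hr2 : ∀ᶠ y in residual (ℕ → Bool), y ∈ Cy β2 N2 → v y k ≠ m1 :=
    (ev_of_meagre hβ2).mono fun y hy hyC h2 => hy ⟨hyC, fun h3 => h3.1 h2⟩
  have hku := ku ((tendsto_residual_of_isOpenMap an_cont an_open).eventually (hr1.and hr2))
  set N' := max (max N0 N1) N2 with hN'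
  obtain ⟨T, hTc, hT1, hT2⟩ := (dense_of_mem_residual (hku.and (show ∀ᶠ T in residual (ℕ → Bool),
    T ∈ Cy t n0 → GCon (fun z => v (an T z)) l from (ev_of_meagre ht).mono fun T hT hTC => by
      by_contra h2
      exact hT ⟨hTC, h2⟩))).inter_open_nonempty _ (cy_open (fun i => if i < N0 then t i else true) N')
    ⟨_, self_mem_cy _ _⟩
  have hTa : ∀ i < N0, T i = t i := fun i hi =>
    (hTc i (by omega)).trans (if_pos hi)
  have hTb : ∀ i, N0 ≤ i → i < N' → T i = true := fun i hi hi' =>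
    (hTc i hi').trans (if_neg (by omega))
  obtain ⟨m, hm⟩ := hT2 (fun i hi => hTa i (by omega)) k
  have hm' : ∀ᶠ z in residual (ℕ → Bool), z ∈ Cl l → v (an T z) k = m :=
      (ev_of_meagre hm).mono fun z hz hzC => by
    by_contra h2
    exact hz ⟨h2, hzC⟩
  have key : ∀ (β : ℕ → Bool) (N : ℕ), N ≤ N' → Cy β N ⊆ Cy w N0 →
      ∃ z, z ∈ Cl l ∧ an T z ∈ Cy β N ∧ v (an T z) k = m ∧
        ((an T z ∈ Cy β1 N1 → v (an T z) k = m1) ∧ (an T z ∈ Cy β2 N2 → v (an T z) k ≠ m1)) := by
    intro β N hN hβ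
    obtain ⟨z, hzc, hz1, hz2⟩ := (dense_of_mem_residual (hm'.and hT1)).inter_open_nonempty _
      (cy_open (fun i => if i < N0 then ext l i else β i) (max N0 N)) ⟨_, self_mem_cy _ _⟩
    have hza : ∀ i < N0, z i = ext l i := fun i hi =>
      (hzc i (by omega)).trans (if_pos hi)
    have hzb : ∀ i, N0 ≤ i → i < N → z i = β i := fun i hi hi' =>
      (hzc i (by omega)).trans (if_neg (by omega))
    have hzl : z ∈ Cl l := fun i hi => hza i (by omega)
    refine ⟨z, hzl, fun i hi => ?_, hz1 hzl, hz2⟩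
    change (T i && z i) = β i
    rcases Nat.lt_or_ge i N0 with h2 | h2
    · rw [hTa i h2, hza i h2]
      exact (hβ (self_mem_cy β N) i h2).symm
    · rw [hTb i h2 (by omega), hzb i h2 hi, Bool.true_and]
  obtain ⟨z1, -, h3, h4, h5, -⟩ := key β1 N1 (by omega) hs1
  obtain ⟨z2, -, h6, h7, -, h8⟩ := key β2 N2 (by omega) hs2
  exact h8 h6 (h7.trans (h4.symm.trans (h5 h3)))

end Pool.Agent.Y588.KF
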