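import Mathlib

/-!
# The graph

A vertex `x` codes a set `st x` of natural numbers and a function `fn x` from the finite
`0`-`1`-sequences to `3`. It gives a continuous function `vl x` from the set of all
`0`-`1`-sequences that are not constant on `st x` to `3`: the value at `α` is the value of `fn x`
at the shortest initial segment of `α` that is not constant on `st x`. Two vertices are adjacent
if their sets are infinite and differ only in a finite set and the continuous functions differ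
everywhere.
-/

set_option autoImplicit false

namespace Pool.Agent.Y588.KF

/-- The set coded by `x`. -/
def st (x : ℕ → ℕ) : Set ℕ := {n | x (2 * n) ≠ 0}

/-- The sequence `α` is not constant on the elements of `A` below `k`. -/
def Nck (A : Set ℕ) (α : ℕ → Bool) (k : ℕ) : Prop :=
  ∃ i < k, ∃ j < k, i ∈ A ∧ j ∈ A ∧ α i = true ∧ α j = false

/-- The length of the shortest initial segment of `α` that is not constant on `A`. -/
noncomputable def tm (A : Set ℕ) (α : ℕ → Bool) : ℕ := sInf {k | Nck A α k}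

/-- The initial segment of `α` of length `k`. -/
def seg (α : ℕ → Bool) (k : ℕ) : List Bool := (List.range k).map α

/-- The function on the finite sequences coded by `x`. -/
def fn (x : ℕ → ℕ) (l : List Bool) : Fin 3 := Fin.ofNat 3 (x (2 * Encodable.encode l + 1))

/-- The value of the continuous function coded by `x`. -/
noncomputable def vl (x : ℕ → ℕ) (α : ℕ → Bool) : Fin 3 := fn x (seg α (tm (st x) α))

theorem Nck.mono {A : Set ℕ} {α : ℕ → Bool} {k l : ℕ} (h : Nck A α k) (hl : k ≤ l) :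
    Nck A α l := by
  obtain ⟨i, hi, j, hj, h⟩ := h
  exact ⟨i, by omega, j, by omega, h⟩

theorem tm_spec {A : Set ℕ} {α : ℕ → Bool} {k : ℕ} (h : Nck A α k) :
    Nck A α (tm A α) ∧ tm A α ≤ k :=
  ⟨Nat.sInf_mem (s := {k | Nck A α k}) ⟨k, h⟩, Nat.sInf_le (s := {k | Nck A α k}) h⟩

theorem tm_eq {A : Set ℕ} {α : ℕ → Bool} {k : ℕ} (h : Nck A α k) (h' : ∀ j < k, ¬ Nck A α j) :
    tm A α = k := by
  obtain ⟨h1, h2⟩ := tm_spec h
  by_contra h3
  exact h' _ (by omega) h1

theorem not_nck_of_lt {A : Set ℕ} {α : ℕ → Bool} {k : ℕ} (h : k < tm A α) : ¬ Nck A α k :=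
  fun h1 => absurd (tm_spec h1).2 (by omega)

theorem nck_iff {A : Set ℕ} {α : ℕ → Bool} {k l : ℕ} (h : Nck A α l) :
    Nck A α k ↔ tm A α ≤ k :=
  ⟨fun h1 => (tm_spec h1).2, fun h1 => (tm_spec h).1.mono h1⟩

/-- Sequences with the same initial segment. -/
theorem nck_congr {A : Set ℕ} {α β : ℕ → Bool} {k : ℕ} (h : ∀ i < k, α i = β i) :
    Nck A α k ↔ Nck A β k := by
  constructor
  · rintro ⟨i, hi, j, hj, h1, h2, h3, h4⟩
    exact ⟨i, hi, j, hj, h1, h2, by rw [← h i hi, h3], by rw [← h j hj, h4]⟩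
  · rintro ⟨i, hi, j, hj, h1, h2, h3, h4⟩
    exact ⟨i, hi, j, hj, h1, h2, by rw [h i hi, h3], by rw [h j hj, h4]⟩

theorem seg_congr {α β : ℕ → Bool} {k : ℕ} (h : ∀ i < k, α i = β i) : seg α k = seg β k :=
  List.map_congr_left fun i hi => h i (List.mem_range.1 hi)

theorem tm_congr {A : Set ℕ} {α β : ℕ → Bool} {k : ℕ} (h : ∀ i < k, α i = β i)
    (hk : Nck A α k) : tm A α = tm A β := by
  obtain ⟨h1, h2⟩ := tm_spec hk
  refine (tm_eq ((nck_congr fun i hi => h i (by omega)).1 h1) fun j hj h3 => ?_).symm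
  exact not_nck_of_lt hj ((nck_congr fun i hi => h i (by omega)).2 h3)

theorem vl_congr {x : ℕ → ℕ} {α β : ℕ → Bool} {k : ℕ} (h : ∀ i < k, α i = β i)
    (hk : Nck (st x) α k) : vl x α = vl x β := by
  have h1 := tm_congr h hk
  have h2 := (tm_spec hk).2
  unfold vl
  rw [← h1, seg_congr fun i hi => h i (by omega)]

/-- The set `A` is infinite and it differs from `B` only in a finite set, and the functions
differ everywhere. -/
def Adj (x y : ℕ → ℕ) : Prop :=
  (st x).Infinite ∧ (symmDiff (st x) (st y)).Finite ∧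
    ∀ α k, Nck (st x) α k → Nck (st y) α k → vl x α ≠ vl y α

theorem inf_of_fin {A B : Set ℕ} (h : A.Infinite) (h' : (symmDiff A B).Finite) : B.Infinite := by
  intro hB
  refine h ((hB.union h').subset fun n hn => ?_)
  by_cases h1 : n ∈ B
  · exact Or.inl h1
  · exact Or.inr (Or.inl ⟨hn, h1⟩)

theorem exists_nck {A B : Set ℕ} (hA : A.Infinite) (h' : (symmDiff A B).Finite) :
    ∃ α k, Nck A α k ∧ Nck B α k := by
  have h1 : (A ∩ B).Infinite := by
    intro hf
    refine hA ((hf.union h').subset fun n hn => ?_)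
    by_cases h1 : n ∈ B
    · exact Or.inl ⟨hn, h1⟩
    · exact Or.inr (Or.inl ⟨hn, h1⟩)
  obtain ⟨i, hi⟩ := h1.nonempty
  obtain ⟨j, hj, hij⟩ := h1.exists_gt i
  refine ⟨fun n => decide (n = i), j + 1, ⟨i, by omega, j, by omega, hi.1, hj.1, by simp,
    decide_eq_false (by omega)⟩, ⟨i, by omega, j, by omega, hi.2, hj.2, by simp,
    decide_eq_false (by omega)⟩⟩

/-- The graph. -/
def G : SimpleGraph (ℕ → ℕ) where
  Adj := Adj
  symm := ⟨fun _ _ h => ⟨inf_of_fin h.1 h.2.1, by rw [symmDiff_comm]; exact h.2.1,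
    fun α k h1 h2 => (h.2.2 α k h2 h1).symm⟩⟩
  loopless := ⟨fun x h => by
    obtain ⟨α, k, h1, h2⟩ := exists_nck h.1 h.2.1
    exact h.2.2 α k h1 h2 rfl⟩

/-! ### The graph is Borel -/

theorem meas_st (n : ℕ) : Measurable fun x : ℕ → ℕ => (n ∈ st x : Prop) :=
  measurableSet_setOfPred.1 (measurable_pi_apply (2 * n) (MeasurableSet.of_discrete (s := {0}ᶜ)))

theorem meas_nck (α : ℕ → Bool) (k : ℕ) : Measurable fun x : ℕ → ℕ => Nck (st x) α k :=
  Measurable.exists fun i => (measurable_const (a := _)).and (Measurable.exists fun j =>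
    (measurable_const (a := _)).and ((meas_st i).and ((meas_st j).and measurable_const)))

theorem meas_tm (α : ℕ → Bool) : Measurable fun x : ℕ → ℕ => tm (st x) α := by
  refine measurable_to_countable' fun k => ?_
  have h1 : (fun x : ℕ → ℕ => tm (st x) α) ⁻¹' {k} =
      {x | (Nck (st x) α k ∧ ∀ j, j < k → ¬ Nck (st x) α j) ∨ (k = 0 ∧ ∀ j, ¬ Nck (st x) α j)} := by
    ext x
    simp only [Set.mem_preimage, Set.mem_singleton_iff, Set.mem_ofPred_eq]
    constructor
    · intro h
      by_cases h2 : ∃ j, Nck (st x) α j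
      · obtain ⟨j, hj⟩ := h2
        left
        rw [← h]
        exact ⟨(tm_spec hj).1, fun i hi => not_nck_of_lt hi⟩
      · push Not at h2
        right
        refine ⟨?_, h2⟩
        rw [← h]
        have h3 : {k | Nck (st x) α k} = ∅ := Set.eq_empty_iff_forall_notMem.2 h2
        unfold tm
        rw [h3, Nat.sInf_empty]
    · rintro (⟨h2, h3⟩ | ⟨rfl, h2⟩)
      · exact tm_eq h2 h3
      · have h3 : {k | Nck (st x) α k} = ∅ := Set.eq_empty_iff_forall_notMem.2 h2
        unfold tm
        rw [h3, Nat.sInf_empty]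
  rw [h1]
  exact measurableSet_setOfPred.2 (((meas_nck α k).and (Measurable.forall fun j =>
    Measurable.forall fun _ => (meas_nck α j).not)).or
      ((measurable_const (a := _)).and (Measurable.forall fun j => (meas_nck α j).not)))

theorem meas_vl (α : ℕ → Bool) : Measurable fun x : ℕ → ℕ => vl x α := by
  refine measurable_to_countable' fun i => ?_
  have h1 : (fun x : ℕ → ℕ => vl x α) ⁻¹' {i} = ⋃ k, ((fun x : ℕ → ℕ => tm (st x) α) ⁻¹' {k} ∩
      {x | fn x (seg α k) = i}) := by
    ext x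
    simp only [Set.mem_preimage, Set.mem_singleton_iff, Set.mem_iUnion, Set.mem_inter_iff,
      Set.mem_ofPred_eq]
    constructor
    · intro h
      exact ⟨_, rfl, h⟩
    · rintro ⟨k, rfl, h⟩
      exact h
  rw [h1]
  refine MeasurableSet.iUnion fun k => ((meas_tm α) (measurableSet_singleton k)).inter ?_
  have h2 : MeasurableSet ((fun x : ℕ → ℕ => x (2 * Encodable.encode (seg α k) + 1)) ⁻¹'
      {m | Fin.ofNat 3 m = i}) := measurable_pi_apply _ MeasurableSet.of_discrete
  exact h2

/-- The sequence with the initial segment `l` that is `false` afterwards. -/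
def ext (l : List Bool) (n : ℕ) : Bool := l.getD n false

theorem ext_seg (α : ℕ → Bool) (k : ℕ) : ∀ i < k, α i = ext (seg α k) i := by
  intro i hi
  simp [ext, seg, hi]

theorem adj_iff {x y : ℕ → ℕ} : Adj x y ↔ (∀ N, ∃ n, N ≤ n ∧ n ∈ st x) ∧
    (∃ N, ∀ n, N ≤ n → (n ∈ st x ↔ n ∈ st y)) ∧ ∀ (l : List Bool) (k : ℕ),
      Nck (st x) (ext l) k → Nck (st y) (ext l) k → vl x (ext l) ≠ vl y (ext l) := by
  unfold Adj
  refine and_congr ?_ (and_congr ?_ ?_)
  · constructor
    · intro h N
      obtain ⟨n, hn, hN⟩ := h.exists_gt N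
      exact ⟨n, hN.le, hn⟩
    · intro h
      rw [Set.infinite_iff_exists_gt]
      intro N
      obtain ⟨n, hn, h1⟩ := h (N + 1)
      exact ⟨n, h1, by omega⟩
  · constructor
    · intro h
      obtain ⟨N, hN⟩ := h.bddAbove
      refine ⟨N + 1, fun n hn => ?_⟩
      by_contra h1
      have h2 : n ∈ symmDiff (st x) (st y) := by
        rw [Set.mem_symmDiff]
        tauto
      have := hN h2
      omega
    · rintro ⟨N, hN⟩
      refine (Set.finite_Iio N).subset fun n hn => ?_
      rw [Set.mem_symmDiff] at hn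
      by_contra h1
      have := hN n (by simpa using h1)
      tauto
  · constructor
    · intro h l k
      exact h _ k
    · intro h α k h1 h2
      have h3 := ext_seg α k
      rw [vl_congr h3 h1, vl_congr h3 h2]
      exact h _ k ((nck_congr h3).1 h1) ((nck_congr h3).1 h2)

theorem borel_G : MeasurableSet {p : (ℕ → ℕ) × (ℕ → ℕ) | G.Adj p.1 p.2} := by
  have h1 : {p : (ℕ → ℕ) × (ℕ → ℕ) | G.Adj p.1 p.2} = {p : (ℕ → ℕ) × (ℕ → ℕ) |
    (∀ N, ∃ n, N ≤ n ∧ n ∈ st p.1) ∧
    (∃ N, ∀ n, N ≤ n → (n ∈ st p.1 ↔ n ∈ st p.2)) ∧ ∀ (l : List Bool) (k : ℕ),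
      Nck (st p.1) (ext l) k → Nck (st p.2) (ext l) k → vl p.1 (ext l) ≠ vl p.2 (ext l)} := by
    ext p
    exact adj_iff
  rw [h1]
  have hs1 : ∀ n, Measurable fun p : (ℕ → ℕ) × (ℕ → ℕ) => (n ∈ st p.1 : Prop) := fun n =>
    (meas_st n).comp measurable_fst
  have hs2 : ∀ n, Measurable fun p : (ℕ → ℕ) × (ℕ → ℕ) => (n ∈ st p.2 : Prop) := fun n =>
    (meas_st n).comp measurable_snd
  have hn1 : ∀ α k, Measurable fun p : (ℕ → ℕ) × (ℕ → ℕ) => Nck (st p.1) α k := fun α k =>
    (meas_nck α k).comp measurable_fst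
  have hn2 : ∀ α k, Measurable fun p : (ℕ → ℕ) × (ℕ → ℕ) => Nck (st p.2) α k := fun α k =>
    (meas_nck α k).comp measurable_snd
  have hv : ∀ α, Measurable fun p : (ℕ → ℕ) × (ℕ → ℕ) => (vl p.1 α = vl p.2 α : Prop) := fun α =>
    measurableSet_setOfPred.1 (measurableSet_eq_fun ((meas_vl α).comp measurable_fst)
      ((meas_vl α).comp measurable_snd))
  refine measurableSet_setOfPred.2 ((Measurable.forall fun N => Measurable.exists fun n =>
    (measurable_const (a := _)).and (hs1 n)).and ((Measurable.exists fun N => Measurable.forall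
      fun n => (measurable_const (a := _)).imp ((hs1 n).iff (hs2 n))).and
        (Measurable.forall fun l => Measurable.forall fun k => (hn1 _ k).imp
          ((hn2 _ k).imp (hv _).not))))

end Pool.Agent.Y588.KF
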