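import Pool.Agent.Y588.KF.Gr

/-!
# Vertices, the colouring number, and no colourings with two colours
-/

set_option autoImplicit false

namespace Pool.Agent.Y588.KF

open Classical in
/-- The vertex that codes the set `A` and the function `φ`. -/
noncomputable def vx (A : Set ℕ) (φ : List Bool → Fin 3) (n : ℕ) : ℕ :=
  if n % 2 = 0 then (if n / 2 ∈ A then 1 else 0)
  else ((Encodable.decode (α := List Bool) (n / 2)).elim 0 fun l => (φ l).val)

theorem st_vx (A : Set ℕ) (φ : List Bool → Fin 3) : st (vx A φ) = A := by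
  ext n
  have h1 : 2 * n % 2 = 0 := by omega
  have h2 : 2 * n / 2 = n := by omega
  simp only [st, vx, Set.mem_ofPred_eq, h1, h2, if_true]
  rw [h2] at *
  split_ifs with h <;> simp [h]

theorem fn_vx (A : Set ℕ) (φ : List Bool → Fin 3) (l : List Bool) : fn (vx A φ) l = φ l := by
  have h1 : ¬ (2 * Encodable.encode l + 1) % 2 = 0 := by omega
  have h2 : (2 * Encodable.encode l + 1) / 2 = Encodable.encode l := by omega
  simp only [fn, vx, h1, h2, if_false, Encodable.encodek, Option.elim_some]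
  exact Fin.ofNat_val_eq_self (φ l)

theorem vl_vx (A : Set ℕ) (φ : List Bool → Fin 3) (α : ℕ → Bool) :
    vl (vx A φ) α = φ (seg α (tm A α)) := by
  rw [vl, fn_vx, st_vx]

theorem adj_vx {A : Set ℕ} (hA : A.Infinite) {φ ψ : List Bool → Fin 3} (h : ∀ l, φ l ≠ ψ l) :
    G.Adj (vx A φ) (vx A ψ) := by
  refine ⟨by rwa [st_vx], by rw [st_vx, st_vx, symmDiff_self]; exact Set.finite_empty, ?_⟩
  intro α k _ _
  rw [vl_vx, vl_vx]
  exact h _

theorem not_colorable_two : ¬ G.Colorable 2 := by
  rintro ⟨c⟩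
  have h1 : ∀ i j : Fin 3, i ≠ j →
      c (vx Set.univ fun _ => i) ≠ c (vx Set.univ fun _ => j) := fun i j h =>
    c.valid (adj_vx Set.infinite_univ fun _ => h)
  have e1 := h1 0 1 (by decide)
  have e2 := h1 1 2 (by decide)
  have e3 := h1 0 2 (by decide)
  generalize c (vx Set.univ fun _ => 0) = u at *
  generalize c (vx Set.univ fun _ => 1) = v at *
  generalize c (vx Set.univ fun _ => 2) = w at *
  clear h1
  revert e1 e2 e3
  revert u v w
  decide

/-- Every edge is in a triangle. -/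
theorem triangle {x y : ℕ → ℕ} (h : G.Adj x y) : ∃ z, G.Adj x z ∧ G.Adj y z := by
  have h3 : ∀ i j : Fin 3, ∃ k, i ≠ k ∧ j ≠ k := by decide
  choose t ht1 ht2 using h3
  obtain ⟨-, ⟨N, hN⟩, -⟩ := adj_iff.1 h
  set C : Set ℕ := st x \ Set.Iio N with hC
  have hCx : ∀ n ∈ C, n ∈ st x := fun n hn => hn.1
  have hCy : ∀ n ∈ C, n ∈ st y := fun n hn => (hN n (not_lt.1 hn.2)).1 hn.1
  have hxC : (symmDiff (st x) C).Finite := by
    refine (Set.finite_Iio N).subset fun n hn => ?_
    rw [Set.mem_symmDiff] at hn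
    by_contra h1
    rcases hn with ⟨h2, h3⟩ | ⟨h2, h3⟩
    · exact h3 ⟨h2, h1⟩
    · exact h3 h2.1
  have hyC : (symmDiff (st y) C).Finite := by
    have h1 : (symmDiff (st y) (st x)).Finite := by
      rw [symmDiff_comm]
      exact h.2.1
    exact (h1.union hxC).subset (symmDiff_triangle _ _ _)
  have key : ∀ (A : Set ℕ), (∀ n ∈ C, n ∈ A) → ∀ α k, Nck C α k → Nck A α (tm C α) := by
    rintro A hA α k hk
    obtain ⟨i, hi, j, hj, h1, h2, h3⟩ := (tm_spec hk).1
    exact ⟨i, hi, j, hj, hA i h1, hA j h2, h3⟩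
  refine ⟨vx C fun l => t (vl x (ext l)) (vl y (ext l)), ⟨h.1, by rwa [st_vx], ?_⟩,
    ⟨h.symm.1, by rwa [st_vx], ?_⟩⟩
  · intro α k _ h2
    rw [st_vx] at h2
    rw [vl_vx, ← vl_congr (ext_seg α (tm C α)) (key _ hCx α k h2)]
    exact ht1 _ _
  · intro α k _ h2
    rw [st_vx] at h2
    rw [vl_vx, ← vl_congr (ext_seg α (tm C α)) (key _ hCy α k h2)]
    exact ht2 _ _

theorem not_countable_cantor : ¬ (Set.univ : Set (ℕ → Bool)).Countable := by
  intro h3
  have h4 : Countable (ℕ → Bool) := Set.countable_univ_iff.1 h3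
  obtain ⟨f, hf⟩ := exists_surjective_nat (ℕ → Bool)
  obtain ⟨n, hn⟩ := hf fun n => !(f n n)
  have h5 := congrFun hn n
  simp at h5

/-- A graph in which all vertices of an infinite set are adjacent to all vertices of an
uncountable set has uncountable colouring number. -/
theorem col_of_rect {Y : Type*} (Δ : SimpleGraph Y) {p : ℕ → Y} (hp : Function.Injective p)
    {Q : Set Y} (hQ : ¬ Q.Countable) (h : ∀ n, ∀ w ∈ Q, Δ.Adj (p n) w)
    (r : Y → Y → Prop) [IsWellOrder Y r] : ∃ y, {x | Δ.Adj x y ∧ r x y}.Infinite := by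
  by_contra hcon
  push Not at hcon
  have hcon' : ∀ y, {x | Δ.Adj x y ∧ r x y}.Finite := hcon
  have h1 : ∀ w ∈ Q, ∃ n, r w (p n) := by
    intro w hw
    obtain ⟨n, hn⟩ : ∃ n, p n ∉ {x | Δ.Adj x w ∧ r x w} := by
      by_contra h3
      push Not at h3
      exact Set.infinite_of_injective_forall_mem hp h3 (hcon' _)
    refine ⟨n, ?_⟩
    rcases trichotomous_of r w (p n) with h4 | h4 | h4
    · exact h4
    · exfalso
      have h5 := h n w hw
      rw [h4] at h5
      exact Δ.loopless.irrefl _ h5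
    · exact absurd ⟨h n w hw, h4⟩ hn
  refine hQ ((Set.countable_iUnion fun n => (hcon' (p n)).countable).mono fun w hw => ?_)
  obtain ⟨n, hn⟩ := h1 w hw
  exact Set.mem_iUnion.2 ⟨n, (h n w hw).symm, hn⟩

theorem uncountable_col (r : (ℕ → ℕ) → (ℕ → ℕ) → Prop) [IsWellOrder (ℕ → ℕ) r] :
    ∃ y, {x | G.Adj x y ∧ r x y}.Infinite := by
  let φ : ℕ → List Bool → Fin 3 := fun n l =>
    if l.length % 2 = 0 then 0 else if l.length = 2 * n + 1 then 1 else 0
  let ψ : (ℕ → Bool) → List Bool → Fin 3 := fun w l =>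
    if l.length % 2 = 0 then (if w (l.length / 2) then 1 else 2) else 2
  have hφ : Function.Injective fun n => vx Set.univ (φ n) := by
    intro n m h
    have h1 : fn (vx Set.univ (φ n)) (List.replicate (2 * n + 1) true) =
      fn (vx Set.univ (φ m)) (List.replicate (2 * n + 1) true) := congrArg (fun x => fn x _) h
    rw [fn_vx, fn_vx] at h1
    simp only [φ, List.length_replicate] at h1
    by_contra hne
    have h2 : ¬ (2 * n + 1) % 2 = 0 := by omega
    have h3 : ¬ 2 * n + 1 = 2 * m + 1 := by omega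
    rw [if_neg h2, if_neg h2, if_pos trivial, if_neg h3] at h1
    exact absurd h1 (by decide)
  have hψ : Function.Injective fun w => vx Set.univ (ψ w) := by
    intro w w' h
    funext n
    have h1 : fn (vx Set.univ (ψ w)) (List.replicate (2 * n) true) =
      fn (vx Set.univ (ψ w')) (List.replicate (2 * n) true) := congrArg (fun x => fn x _) h
    rw [fn_vx, fn_vx] at h1
    have h2 : 2 * n % 2 = 0 := by omega
    have h3 : 2 * n / 2 = n := by omega
    simp only [ψ, List.length_replicate, h2, h3, if_true] at h1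
    cases h4 : w n <;> cases h5 : w' n <;> rw [h4, h5] at h1 <;> first | rfl | exact absurd h1 (by decide)
  refine col_of_rect G hφ (Q := Set.range fun w => vx Set.univ (ψ w)) ?_ ?_ r
  · intro h
    refine not_countable_cantor (Set.MapsTo.countable_of_injOn (f := fun w => vx Set.univ (ψ w))
      (t := Set.range fun w => vx Set.univ (ψ w)) (fun w _ => ⟨w, rfl⟩) hψ.injOn h)
  · rintro n _ ⟨w, rfl⟩
    refine adj_vx Set.infinite_univ fun l => ?_
    simp only [φ, ψ]
    split_ifs <;> decide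

end Pool.Agent.Y588.KF
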