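import Pool.Agent.Y588.KF.Gc
import Pool.Agent.Y588.KF.GL
import Pool.Agent.Y588.KF.Vx

/-!
# Homomorphisms to graphs of countable colouring number
-/

set_option autoImplicit false

namespace Pool.Agent.Y588.KF

open Topology Filter

/-- The function with the values `i` and `j`. -/
def em (i j : Fin 3) (z : ℕ → Bool) : ℕ → Fin 3 := fun n => if z n then i else j

/-- The complement. -/
def nt (T : ℕ → Bool) : ℕ → Bool := fun n => !(T n)

theorem em_ne (T z z' : ℕ → Bool) (n : ℕ) : em 1 0 (an (nt T) z) n ≠ em 1 2 (an T z') n := by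
  unfold em an nt
  cases T n <;> cases z n <;> cases z' n <;> decide

theorem nt_cont : Continuous nt := by
  refine continuous_pi fun n => ?_
  have h1 : Continuous fun b : Bool => !b := continuous_of_discreteTopology
  exact h1.comp (continuous_apply n)

theorem nt_nt (T : ℕ → Bool) : nt (nt T) = T := by
  funext n
  simp [nt]

/-- The flip above `N`. -/
def fp (N : ℕ) (T : ℕ → Bool) : ℕ → Bool := fun n => if n < N then T n else !(T n)

theorem fp_cont (N : ℕ) : Continuous (fp N) := by
  refine continuous_pi fun n => ?_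
  unfold fp
  by_cases h : n < N
  · simp only [if_pos h]
    exact continuous_apply n
  · simp only [if_neg h]
    have h1 : Continuous fun b : Bool => !b := continuous_of_discreteTopology
    exact h1.comp (continuous_apply n)

theorem fp_fp (N : ℕ) (T : ℕ → Bool) : fp N (fp N T) = T := by
  funext n
  unfold fp
  by_cases h : n < N
  · simp [h]
  · simp [h]

theorem open_of_invol {X : Type*} [TopologicalSpace X] {f : X → X} (hf : Continuous f)
    (h : ∀ x, f (f x) = x) : IsOpenMap f := by
  intro U hU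
  have h1 : f '' U = f ⁻¹' U := by
    ext x
    constructor
    · rintro ⟨y, hy, rfl⟩
      change f (f y) ∈ U
      rwa [h]
    · intro hx
      exact ⟨f x, hx, h x⟩
  rw [h1]
  exact hU.preimage hf

theorem exists_gcon {Y : Type*} (Δ : SimpleGraph Y) (r : Y → Y → Prop) [IsWellOrder Y r]
    (hr : ∀ y, {x | Δ.Adj x y ∧ r x y}.Finite) (u : (ℕ → Fin 3) → Y)
    (hu : ∀ φ ψ, (∀ n, φ n ≠ ψ n) → Δ.Adj (u φ) (u ψ)) (e : Y → ℕ → ℕ)
    (hm : ∀ i j, Measurable fun z => e (u (em i j z))) :
    ∃ l, GCon (fun z => e (u (em 1 0 z))) l ∨ GCon (fun z => e (u (em 1 2 z))) l := by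
  have hac : ∀ T, Measurable fun z => an T z := fun T =>
    (an_cont.comp (by fun_prop : Continuous fun z : ℕ → Bool => (T, z))).measurable
  have hco : ∀ T, (Set.range fun z => u (em 1 0 (an (nt T) z))).Countable ∨
      (Set.range fun z => u (em 1 2 (an T z))).Countable := by
    intro T
    by_contra h
    push Not at h
    obtain ⟨h1, h2⟩ := h
    have h3 : (Set.range fun z => u (em 1 0 (an (nt T) z))).Infinite := fun h4 => h1 h4.countable
    obtain ⟨y, hy⟩ := col_of_rect Δ (p := fun n => (h3.natEmbedding _ n).1)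
      (fun n m h => (h3.natEmbedding _).injective (Subtype.ext h)) h2 (by
        rintro n _ ⟨z', rfl⟩
        obtain ⟨z, hz⟩ := (h3.natEmbedding _ n).2
        change u (em 1 0 (an (nt T) z)) = _ at hz
        rw [← hz]
        exact hu _ _ fun n => em_ne T z z' n) r
    exact hy (hr y)
  by_contra hcon
  push Not at hcon
  have h1 : IsMeagre {T | ∃ l, GCon (fun z => e (u (em 1 0 (an T z)))) l} := by
    by_contra h2
    obtain ⟨l, hl⟩ := gcon_an (v := fun z => e (u (em 1 0 z))) (hm 1 0) h2
    exact (hcon l).1 hl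
  have h2 : IsMeagre {T | ∃ l, GCon (fun z => e (u (em 1 2 (an T z)))) l} := by
    by_contra h2
    obtain ⟨l, hl⟩ := gcon_an (v := fun z => e (u (em 1 2 z))) (hm 1 2) h2
    exact (hcon l).2 hl
  have h3 := (tendsto_residual_of_isOpenMap nt_cont (open_of_invol nt_cont nt_nt)).eventually
    (ev_of_meagre h1)
  obtain ⟨T, -, h4, h5⟩ := (dense_of_mem_residual (h3.and (ev_of_meagre h2))).inter_open_nonempty _
    isOpen_univ ⟨fun _ => true, trivial⟩
  rcases hco T with h6 | h6
  · exact h4 (gcon_of_countable (fun z => u (em 1 0 (an (nt T) z))) e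
      ((hm 1 0).comp (hac (nt T))) h6)
  · exact h5 (gcon_of_countable (fun z => u (em 1 2 (an T z))) e ((hm 1 2).comp (hac T)) h6)

theorem of_gcon {Y : Type*} (u : (ℕ → Fin 3) → Y) (e : Y → ℕ → ℕ) (he : Function.Injective e)
    {i j : Fin 3} (hij : i ≠ j) {l : List Bool} (h : GCon (fun z => e (u (em i j z))) l) :
    ∃ φ ψ : ℕ → Fin 3, (∀ n, ¬ n < l.length → φ n ≠ ψ n) ∧ u φ = u ψ := by
  choose m hm using h
  have h1 : ∀ᶠ z in residual (ℕ → Bool), z ∈ Cl l → e (u (em i j z)) = m := by
    filter_upwards [eventually_countable_forall.2 fun k => ev_of_meagre (hm k)] with z hz hzC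
    funext k
    by_contra h2
    exact hz k ⟨h2, hzC⟩
  have h2 := (tendsto_residual_of_isOpenMap (fp_cont l.length)
    (open_of_invol (fp_cont l.length) (fp_fp l.length))).eventually h1
  obtain ⟨z, hz, h3, h4⟩ := (dense_of_mem_residual (h1.and h2)).inter_open_nonempty _
    (cy_open (ext l) l.length) ⟨_, self_mem_cy _ _⟩
  refine ⟨em i j z, em i j (fp l.length z), fun n hn => ?_, he ?_⟩
  · unfold em fp
    rw [if_neg hn]
    cases z n
    · simpa using hij.symm
    · simpa using hij
  · rw [h3 hz, h4 fun k hk => ?_]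
    change (if k < l.length then z k else !(z k)) = ext l k
    rw [if_pos hk]
    exact hz k hk

/-! ### Vertices -/

/-- The set with the characteristic function `a`. -/
def sa (a : ℕ → Bool) : Set ℕ := {n | a n = true}

/-- The vertex that codes the set with the characteristic function `a` and the function `ψ`. -/
def vz (a : ℕ → Bool) (ψ : ℕ → Fin 3) (n : ℕ) : ℕ :=
  if n % 2 = 0 then (if a (n / 2) then 1 else 0) else (ψ (n / 2)).val

theorem st_vz (a : ℕ → Bool) (ψ : ℕ → Fin 3) : st (vz a ψ) = sa a := by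
  ext n
  have h1 : 2 * n % 2 = 0 := by omega
  have h2 : 2 * n / 2 = n := by omega
  simp only [st, vz, sa, Set.mem_ofPred_eq, h1, h2, if_true]
  cases a n <;> simp

theorem vl_vz (a : ℕ → Bool) (ψ : ℕ → Fin 3) (α : ℕ → Bool) :
    vl (vz a ψ) α = ψ (Encodable.encode (seg α (tm (sa a) α))) := by
  rw [vl, st_vz]
  have h1 : ¬ (2 * Encodable.encode (seg α (tm (sa a) α)) + 1) % 2 = 0 := by omega
  have h2 : (2 * Encodable.encode (seg α (tm (sa a) α)) + 1) / 2 =
    Encodable.encode (seg α (tm (sa a) α)) := by omega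
  simp only [fn, vz, h1, h2, if_false]
  exact Fin.ofNat_val_eq_self _

theorem adj_vz {a b : ℕ → Bool} (ha : (sa a).Infinite) (hab : (symmDiff (sa a) (sa b)).Finite)
    {φ ψ : ℕ → Fin 3} (h : ∀ α k, Nck (sa a) α k → Nck (sa b) α k →
      φ (Encodable.encode (seg α (tm (sa a) α))) ≠ ψ (Encodable.encode (seg α (tm (sa b) α)))) :
    G.Adj (vz a φ) (vz b ψ) := by
  refine ⟨by rwa [st_vz], by rwa [st_vz, st_vz], fun α k h1 h2 => ?_⟩
  rw [st_vz] at h1 h2
  rw [vl_vz, vl_vz]
  exact h α k h1 h2

theorem seg_inj {α β : ℕ → Bool} {m n : ℕ} (h : seg α m = seg β n) :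
    m = n ∧ ∀ i < m, α i = β i := by
  have h1 : m = n := by
    have := congrArg List.length h
    simpa [seg] using this
  subst h1
  refine ⟨rfl, fun i hi => ?_⟩
  rw [ext_seg α m i hi, ext_seg β m i hi, h]

section

variable {c : (ℕ → ℕ) → Fin 3} (hc : ∀ x y, G.Adj x y → c x ≠ c y)

include hc

/-- The deciding element is a shortest finite sequence that is not constant on the set. -/
theorem pt_form {a : ℕ → Bool} (ha : (sa a).Infinite) {n : ℕ} {π : Fin 3 → Fin 3}
    (h : ∀ φ : ℕ → Fin 3, c (vz a φ) = π (φ n)) :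
    ∃ α, (∃ k, Nck (sa a) α k) ∧ n = Encodable.encode (seg α (tm (sa a) α)) := by
  by_contra hcon
  push Not at hcon
  have h1 : G.Adj (vz a fun _ => 0) (vz a fun m => if m = n then 0 else 1) := by
    refine adj_vz ha (by rw [symmDiff_self]; exact Set.finite_empty) fun α k h1 _ => ?_
    have h2 := hcon α ⟨k, h1⟩
    rw [if_neg (fun h => h2 h.symm)]
    decide
  refine hc _ _ h1 ?_
  rw [h, h, if_pos rfl]

/-- The deciding elements for almost equal sets are comparable. -/
theorem pt_comp {a b : ℕ → Bool} (ha : (sa a).Infinite) (hab : (symmDiff (sa a) (sa b)).Finite)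
    {π ρ : Fin 3 → Fin 3} (hρ : Function.Injective ρ) {α β : ℕ → Bool}
    (h : ∀ φ : ℕ → Fin 3, c (vz a φ) = π (φ (Encodable.encode (seg α (tm (sa a) α)))))
    (h' : ∀ φ : ℕ → Fin 3, c (vz b φ) = ρ (φ (Encodable.encode (seg β (tm (sa b) β))))) :
    ∀ i, i < tm (sa a) α → i < tm (sa b) β → α i = β i := by
  intro i hi hi'
  by_contra hne
  set n := Encodable.encode (seg α (tm (sa a) α)) with hn
  set m := Encodable.encode (seg β (tm (sa b) β)) with hm
  obtain ⟨j, hj⟩ := (Finite.surjective_of_injective hρ) (π 0)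
  have h4 : ∀ j : Fin 3, ∃ p q : Fin 3, p ≠ j ∧ q ≠ 0 ∧ p ≠ q := by decide
  obtain ⟨p, q, hp, hq, hpq⟩ := h4 j
  have h1 : G.Adj (vz a fun k => if k = n then 0 else p) (vz b fun k => if k = m then j else q) := by
    refine adj_vz ha hab fun γ k _ _ => ?_
    by_cases h2 : Encodable.encode (seg γ (tm (sa a) γ)) = n
    · by_cases h3 : Encodable.encode (seg γ (tm (sa b) γ)) = m
      · exfalso
        obtain ⟨e1, e2⟩ := seg_inj (Encodable.encode_injective h2)
        obtain ⟨e3, e4⟩ := seg_inj (Encodable.encode_injective h3)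
        exact hne ((e2 i (by omega)).symm.trans (e4 i (by omega)))
      · rw [if_pos h2, if_neg h3]
        exact hq.symm
    · rw [if_neg h2]
      split_ifs
      · exact hp
      · exact hpq
  refine hc _ _ h1 ?_
  rw [h, h', if_pos rfl, if_pos rfl, hj]

end

end Pool.Agent.Y588.KF
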