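import Pool.Agent.Y588.KF.Ell
import Pool.Agent.Y588.KF.Hom

/-!
# The Ramsey argument
-/

set_option autoImplicit false

namespace Pool.Agent.Y588.KF

open Topology Filter Pool.Agent.H38R3.Ell

open Classical in
/-- The characteristic function. -/
noncomputable def chi (Z : Set ℕ) : ℕ → Bool := fun n => decide (n ∈ Z)

theorem sa_chi (Z : Set ℕ) : sa (chi Z) = Z := by
  ext n
  simp [sa, chi]

/-- Membership in countably many completely Ramsey sets that are invariant under finite changes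
is constant on the infinite subsets of some infinite set. -/
theorem homog (S : ℕ → Set (Set ℕ)) (hS : ∀ n, CR (S n))
    (hinv : ∀ n Z Z', (symmDiff Z Z').Finite → Z ∈ S n → Z' ∈ S n) :
    ∃ H : Set ℕ, H.Infinite ∧ ∀ n, (∀ Z ⊆ H, Z.Infinite → Z ∈ S n) ∨
      ∀ Z ⊆ H, Z.Infinite → Z ∉ S n := by
  have h1 : ∀ (n : ℕ) (X : {X : Set ℕ // X.Infinite}), ∃ Y : {X : Set ℕ // X.Infinite},
      Y.1 ⊆ X.1 ∧ ((∀ z ∈ Nb ∅ Y.1, z ∈ S n) ∨ ∀ z ∈ Nb ∅ Y.1, z ∉ S n) := by
    intro n X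
    obtain ⟨Y, h2, h3, h4⟩ := hS n ∅ X.1 X.2
    exact ⟨⟨Y, h3⟩, h2, h4⟩
  choose F hF1 hF2 using h1
  let Y : ℕ → {X : Set ℕ // X.Infinite} := fun n =>
    Nat.rec ⟨Set.univ, Set.infinite_univ⟩ (fun n X => F n X) n
  have hY : ∀ n, Y (n + 1) = F n (Y n) := fun n => rfl
  have hYa : ∀ n, (Y (n + 1)).1 ⊆ (Y n).1 := fun n => by
    rw [hY]
    exact hF1 n (Y n)
  have hYm : ∀ m n, m ≤ n → (Y n).1 ⊆ (Y m).1 := by
    intro m n h
    induction n, h using Nat.le_induction with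
    | base => exact subset_rfl
    | succ n _ ih => exact (hYa n).trans ih
  have h2 : ∀ n m : ℕ, ∃ k ∈ (Y n).1, m < k := fun n m => (Y n).2.exists_gt m
  choose g hg1 hg2 using h2
  let a : ℕ → ℕ := fun n => Nat.rec (g 0 0) (fun n x => g (n + 1) x) n
  have ha : ∀ n, a (n + 1) = g (n + 1) (a n) := fun n => rfl
  have ham : StrictMono a := strictMono_nat_of_lt_succ fun n => by
    rw [ha]
    exact hg2 _ _
  have haY : ∀ n, a n ∈ (Y n).1 := by
    intro n
    cases n with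
    | zero => exact hg1 0 0
    | succ n =>
      rw [ha]
      exact hg1 (n + 1) (a n)
  refine ⟨Set.range a, Set.infinite_range_of_injective ham.injective, fun n => ?_⟩
  have key : ∀ Z ⊆ Set.range a, Z.Infinite → ∃ Z', (symmDiff Z Z').Finite ∧
      Z' ∈ Nb ∅ (Y (n + 1)).1 := by
    intro Z hZ hZi
    refine ⟨Z \ Set.Iio (a (n + 1)), ?_, mem_Nb (hZi.sdiff (Set.finite_Iio _)) ?_⟩
    · refine (Set.finite_Iio (a (n + 1))).subset fun k hk => ?_
      rw [Set.mem_symmDiff] at hk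
      by_contra h3
      rcases hk with ⟨h4, h5⟩ | ⟨h4, h5⟩
      · exact h5 ⟨h4, h3⟩
      · exact h5 h4.1
    · rintro k ⟨hk, hk'⟩
      obtain ⟨m, rfl⟩ := hZ hk
      have h3 : n + 1 ≤ m := by
        by_contra h4
        have h5 : m < n + 1 := by omega
        exact hk' (ham h5)
      exact hYm _ _ h3 (haY m)
  have h3 := hF2 n (Y n)
  rw [← hY] at h3
  rcases h3 with h3 | h3
  · left
    intro Z hZ hZi
    obtain ⟨Z', h4, h5⟩ := key Z hZ hZi
    exact hinv n Z' Z (by rwa [symmDiff_comm]) (h3 Z' h5)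
  · right
    intro Z hZ hZi h6
    obtain ⟨Z', h4, h5⟩ := key Z hZ hZi
    exact h3 Z' h5 (hinv n Z Z' h4 h6)

theorem meas_chi (F : Finset ℕ) :
    @Measurable (Set ℕ) (ℕ → Bool) mCR _ fun Z => chi (symmDiff Z F) := by
  let _ := mCR
  refine measurable_pi_lambda _ fun n => ?_
  have h1 : Measurable fun Z : Set ℕ => (n ∈ Z : Prop) := measurableSet_setOfPred.1 (cr_mem n)
  have h2 : Measurable fun Z : Set ℕ => (n ∈ symmDiff Z (F : Set ℕ) : Prop) := by
    have h3 : (fun Z : Set ℕ => (n ∈ symmDiff Z (F : Set ℕ) : Prop)) =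
        fun Z => (n ∈ Z ∧ ¬ n ∈ F) ∨ (n ∈ F ∧ ¬ n ∈ Z) := by
      funext Z
      rw [Set.mem_symmDiff]
      rfl
    rw [h3]
    exact (h1.and measurable_const).or (measurable_const.and h1.not)
  refine measurable_to_bool ?_
  have h4 : (fun Z : Set ℕ => chi (symmDiff Z (F : Set ℕ)) n) ⁻¹' {true} =
      {Z | n ∈ symmDiff Z (F : Set ℕ)} := by
    ext Z
    simp [chi]
  rw [h4]
  exact measurableSet_setOfPred.2 h2

theorem meas_D (M : (ℕ → Bool) → ℕ) (hM : Measurable M) (β : ℕ → Bool) :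
    MeasurableSet {a : ℕ → Bool | Nck (sa a) β (M a)} := by
  have h1 : {a : ℕ → Bool | Nck (sa a) β (M a)} = {a : ℕ → Bool | ∃ m, M a = m ∧
      ∃ i, i < m ∧ ∃ j, j < m ∧ a i = true ∧ a j = true ∧ β i = true ∧ β j = false} := by
    ext a
    constructor
    · intro h
      exact ⟨_, rfl, h⟩
    · rintro ⟨m, rfl, h⟩
      exact h
  rw [h1]
  have h2 : ∀ i, Measurable fun a : ℕ → Bool => (a i = true : Prop) := fun i => by
    have h4 : MeasurableSet ((fun f : ℕ → Bool => f i) ⁻¹' {true}) :=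
      measurable_pi_apply i (measurableSet_singleton true)
    exact measurableSet_setOfPred.1 h4
  have h3 : ∀ m, Measurable fun a : ℕ → Bool => (M a = m : Prop) := fun m =>
    measurableSet_setOfPred.1 (hM (measurableSet_singleton m))
  exact measurableSet_setOfPred.2 (Measurable.exists fun m => (h3 m).and
    (Measurable.exists fun i => (measurable_const (a := _)).and (Measurable.exists fun j =>
      (measurable_const (a := _)).and ((h2 i).and ((h2 j).and measurable_const)))))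

/-- The sequences that are not constant below the given bound on any set that is almost equal
to `Z`. -/
def Kp (M : (ℕ → Bool) → ℕ) (Z : Set ℕ) (α : ℕ → Bool) : Prop :=
  ∀ Z' : Set ℕ, (symmDiff Z Z').Finite → Nck Z' α (M (chi Z'))

theorem kp_iff {M : (ℕ → Bool) → ℕ} {Z : Set ℕ} {α : ℕ → Bool} : Kp M Z α ↔
    ∀ F : Finset ℕ, Nck (symmDiff Z F) α (M (chi (symmDiff Z F))) := by
  constructor
  · intro h F
    refine h _ ?_
    rw [symmDiff_symmDiff_cancel_left]
    exact F.finite_toSet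
  · intro h Z' hZ'
    have h1 := h hZ'.toFinset
    rw [Set.Finite.coe_toFinset, symmDiff_symmDiff_cancel_left] at h1
    exact h1

theorem fin_trans {A B D : Set ℕ} (h1 : (symmDiff A B).Finite) (h2 : (symmDiff B D).Finite) :
    (symmDiff A D).Finite :=
  (h1.union h2).subset (symmDiff_triangle A B D)

theorem Kp.inv {M : (ℕ → Bool) → ℕ} {Z Z' : Set ℕ} (h : (symmDiff Z Z').Finite) {α : ℕ → Bool}
    (hα : Kp M Z α) : Kp M Z' α := fun Z'' h' => hα Z'' (fin_trans h h')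

theorem closed_nck (A : Set ℕ) (m : ℕ) : IsClosed {β : ℕ → Bool | Nck A β m} := by
  rw [← isOpen_compl_iff, isOpen_iff_forall_mem_open]
  intro β hβ
  refine ⟨Cy β m, fun γ hγ h => hβ ((nck_congr hγ).1 h), cy_open _ _, self_mem_cy _ _⟩

/-- The sets for which some such sequence extends `l`. -/
def Rs (M : (ℕ → Bool) → ℕ) (l : List Bool) : Set (Set ℕ) := {Z | ∃ α, Kp M Z α ∧ α ∈ Cl l}

theorem rs_eq (M : (ℕ → Bool) → ℕ) (l : List Bool) : Rs M l =
    ⋂ 𝓕 : Finset (Finset ℕ), ⋃ l' : List Bool, ⋃ (_ : ext l' ∈ Cl l), ⋂ F ∈ 𝓕,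
      {Z | Nck (symmDiff Z F) (ext l') (M (chi (symmDiff Z F)))} := by
  ext Z
  simp only [Set.mem_iInter, Set.mem_iUnion, Set.mem_ofPred_eq]
  constructor
  · rintro ⟨α, hα, hαl⟩ 𝓕
    set N := max l.length (𝓕.sup fun F => M (chi (symmDiff Z F))) with hN
    have h1 := ext_seg α N
    refine ⟨seg α N, fun i hi => ?_, fun F hF => ?_⟩
    · rw [← h1 i (by omega)]
      exact hαl i hi
    · have h2 : M (chi (symmDiff Z F)) ≤ 𝓕.sup fun F => M (chi (symmDiff Z F)) :=
        Finset.le_sup (f := fun F : Finset ℕ => M (chi (symmDiff Z F))) hF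
      exact (nck_congr fun i hi => h1 i (by omega)).1 (kp_iff.1 hα F)
  · intro h
    have h1 : (Cl l ∩ ⋂ F : Finset ℕ,
        {β : ℕ → Bool | Nck (symmDiff Z F) β (M (chi (symmDiff Z F)))}).Nonempty := by
      refine IsCompact.inter_iInter_nonempty (cy_closed _ _).isCompact _
        (fun F => closed_nck _ _) fun 𝓕 => ?_
      obtain ⟨l', h2, h3⟩ := h 𝓕
      exact ⟨ext l', h2, Set.mem_iInter₂.2 h3⟩
    obtain ⟨α, hα1, hα2⟩ := h1
    exact ⟨α, kp_iff.2 fun F => Set.mem_iInter.1 hα2 F, hα1⟩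

theorem cr_rs (M : (ℕ → Bool) → ℕ) (hM : Measurable M) (l : List Bool) : CR (Rs M l) := by
  rw [rs_eq]
  let _ := mCR
  have h1 : ∀ (F : Finset ℕ) (β : ℕ → Bool),
      MeasurableSet {Z : Set ℕ | Nck (symmDiff Z F) β (M (chi (symmDiff Z F)))} := by
    intro F β
    have h2 := (meas_chi F) (meas_D M hM β)
    have h3 : (fun Z : Set ℕ => chi (symmDiff Z (F : Set ℕ))) ⁻¹'
        {a : ℕ → Bool | Nck (sa a) β (M a)} =
        {Z : Set ℕ | Nck (symmDiff Z F) β (M (chi (symmDiff Z F)))} := by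
      ext Z
      change Nck (sa (chi (symmDiff Z (F : Set ℕ)))) β (M (chi (symmDiff Z (F : Set ℕ)))) ↔ _
      rw [sa_chi]
      exact Iff.rfl
    rw [← h3]
    exact h2
  have h2 : MeasurableSet (⋂ 𝓕 : Finset (Finset ℕ), ⋃ l' : List Bool, ⋃ (_ : ext l' ∈ Cl l),
      ⋂ F ∈ 𝓕, {Z : Set ℕ | Nck (symmDiff Z F) (ext l') (M (chi (symmDiff Z F)))}) := by
    refine MeasurableSet.iInter fun 𝓕 => MeasurableSet.iUnion fun l' => ?_
    refine MeasurableSet.iUnion fun _ => ?_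
    exact Finset.measurableSet_biInter _ fun F _ => h1 F (ext l')
  exact h2

/-- The contradiction. -/
theorem ramsey_contra (M : (ℕ → Bool) → ℕ) (hM : Measurable M) (α : (ℕ → Bool) → ℕ → Bool)
    (t : (ℕ → Bool) → ℕ) (h1 : ∀ a, (sa a).Infinite → Nck (sa a) (α a) (t a))
    (h2 : ∀ a, (sa a).Infinite → t a ≤ M a)
    (h3 : ∀ a b, (sa a).Infinite → (sa b).Infinite → (symmDiff (sa a) (sa b)).Finite →
      ∀ i, i < t a → i < t b → α a i = α b i) : False := by
  have hne : ∀ Z : Set ℕ, Z.Infinite → ∃ β, Kp M Z β := by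
    intro Z hZ
    set W : ℕ → Set ℕ := fun n => Z \ Set.Iio n with hW
    have hWi : ∀ n, (W n).Infinite := fun n => hZ.sdiff (Set.finite_Iio _)
    have hWf : ∀ n, (symmDiff Z (W n)).Finite := fun n => by
      refine (Set.finite_Iio n).subset fun k hk => ?_
      rw [Set.mem_symmDiff] at hk
      by_contra h3
      rcases hk with ⟨h4, h5⟩ | ⟨h4, h5⟩
      · exact h5 ⟨h4, h3⟩
      · exact h5 h4.1
    have hWt : ∀ n, n < t (chi (W n)) := by
      intro n
      have h4 := h1 (chi (W n)) (by rw [sa_chi]; exact hWi n)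
      rw [sa_chi] at h4
      obtain ⟨i, hi, j, hj, hiW, -⟩ := h4
      have h5 : ¬ i < n := hiW.2
      omega
    refine ⟨fun n => α (chi (W n)) n, fun Z' hZ' => ?_⟩
    have hZi' : Z'.Infinite := inf_of_fin hZ hZ'
    have h4 := h1 (chi Z') (by rw [sa_chi]; exact hZi')
    have h5 := h2 (chi Z') (by rw [sa_chi]; exact hZi')
    rw [sa_chi] at h4
    refine Nck.mono ((nck_congr fun i hi => ?_).1 h4) h5
    refine h3 _ _ (by rw [sa_chi]; exact hZi') (by rw [sa_chi]; exact hWi i) ?_ i hi (hWt i)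
    rw [sa_chi, sa_chi]
    exact fin_trans (by rwa [symmDiff_comm] at hZ') (hWf i)
  obtain ⟨f, hf⟩ := exists_surjective_nat (List Bool)
  obtain ⟨H, hH, hh⟩ := homog (fun n => Rs M (f n)) (fun n => cr_rs M hM (f n))
    fun n Z Z' h ⟨β, hβ, hβ'⟩ => ⟨β, hβ.inv h, hβ'⟩
  obtain ⟨β, hβ⟩ := hne H hH
  -- an infinite subset on which `β` is constant
  obtain ⟨v, Z, hZH, hZi, hZv⟩ : ∃ (v : Bool) (Z : Set ℕ), Z ⊆ H ∧ Z.Infinite ∧
      ∀ n ∈ Z, β n = v := by
    by_cases h4 : {n | n ∈ H ∧ β n = true}.Infinite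
    · exact ⟨true, _, fun n hn => hn.1, h4, fun n hn => hn.2⟩
    · refine ⟨false, {n | n ∈ H ∧ β n = false}, fun n hn => hn.1, fun h5 => ?_, fun n hn => hn.2⟩
      rw [Set.not_infinite] at h4
      refine hH ((h4.union h5).subset fun n hn => ?_)
      cases h6 : β n
      · exact Or.inr ⟨hn, h6⟩
      · exact Or.inl ⟨hn, h6⟩
  obtain ⟨n, hn⟩ := hf (seg β (M (chi Z)))
  have h5 : H ∈ Rs M (f n) := ⟨β, hβ, by
    rw [hn, cl_seg]
    exact self_mem_cy _ _⟩
  have h6 : Z ∈ Rs M (f n) := by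
    rcases hh n with h7 | h7
    · exact h7 Z hZH hZi
    · exact absurd h5 (h7 H subset_rfl hH)
  obtain ⟨γ, hγ, hγ'⟩ := h6
  rw [hn, cl_seg] at hγ'
  have h7 := hγ Z (by rw [symmDiff_self]; exact Set.finite_empty)
  obtain ⟨i, -, j, -, hi, hj, hi', hj'⟩ := (nck_congr hγ').1 h7
  rw [hZv i hi] at hi'
  rw [hZv j hj] at hj'
  exact absurd (hi'.symm.trans hj') (by decide)

end Pool.Agent.Y588.KF
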