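import Pool.Agent.Y588.KF.Flip

/-!
# There is no transversal of `E₀`
-/

set_option autoImplicit false
set_option linter.unusedSectionVars false

namespace Pool.Agent.Y588.KF

open Topology Filter Pool.Agent.W868 Pool.Agent.W868.PName Pool.Agent.W910.SY Pool.Agent.W910.BG
open ZFSet (pair)

/-- The subsets `x` and `y` of `ω` differ only in a finite set: there is `n ∈ ω` such that the
elements `m` of `ω` that are not in `n = {0, …, n - 1}` are in `x` if and only if they are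
in `y`. -/
def E0 (x y : ZFSet.{0}) : Prop :=
  ∃ n ∈ ZFSet.omega, ∀ m ∈ ZFSet.omega, m ∉ n → (m ∈ x ↔ m ∈ y)

/-- `T` is a set of subsets of `ω` that has, for every subset `x` of `ω` in the class `M`,
exactly one element `y` with finite symmetric difference of `x` and `y`. -/
def IsTr (M : Set ZFSet.{0}) (T : ZFSet.{0}) : Prop :=
  (∀ y ∈ T, y ⊆ ZFSet.omega) ∧
  ∀ x ∈ M, x ⊆ ZFSet.omega → ∃ y, (y ∈ T ∧ E0 x y) ∧ ∀ z, z ∈ T ∧ E0 x z → z = y

section R

variable {P' : Type} [Preorder P'] [OrderTop P']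

/-- The properties of the value of `T` that are used. -/
def RT (T : PName P') (π : Pkg P') : Prop :=
  (∀ y ∈ π.val T, y ⊆ ZFSet.omega) ∧
  (∀ x ∈ π.W, x ⊆ ZFSet.omega → ∃ y ∈ π.val T, E0 x y) ∧
  (∀ y ∈ π.val T, ∀ z ∈ π.val T, E0 y z → y = z)

theorem ndfn_sub {S : Set (PName P')} (hom : check ZFSet.omega ∈ S) {n : ℕ} (i : Fin n) :
    NDfn S fun π (v : Fin n → ZFSet.{0}) => v i ⊆ ZFSet.omega := by
  have h1 : NDfn S fun π (v : Fin n → ZFSet.{0}) => ∀ w ∈ v i, w ∈ π.hat ZFSet.omega :=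
    NDfn.ball (Q := fun π w _ => w ∈ π.hat ZFSet.omega) (NDfnF.proj i)
      (NDfn.mem (NDfnF.proj 0) (NDfnF.hat hom))
  refine h1.congr fun π _ v _ => ?_
  rw [π.hat_omega]
  exact Iff.rfl

theorem ndfn_E0 {S : Set (PName P')} (hom : check ZFSet.omega ∈ S) {n : ℕ} (i j : Fin n) :
    NDfn S fun π (v : Fin n → ZFSet.{0}) => E0 (v i) (v j) := by
  have h1 : NDfn S fun π (v : Fin n → ZFSet.{0}) => ∃ a ∈ π.hat ZFSet.omega,
      ∀ m ∈ π.hat ZFSet.omega, ¬ m ∈ a → (m ∈ v i ↔ m ∈ v j) := by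
    refine NDfn.bex (Q := fun π a v => ∀ m ∈ π.hat ZFSet.omega, ¬ m ∈ a → (m ∈ v i ↔ m ∈ v j))
      (NDfnF.hat hom) ?_
    refine NDfn.ball (Q := fun _ m v => ¬ m ∈ v 0 → (m ∈ v i.succ ↔ m ∈ v j.succ))
      (NDfnF.hat hom) ?_
    refine (NDfn.mem (NDfnF.proj 0) (NDfnF.proj 1)).not.imp ?_
    exact ((NDfn.mem (NDfnF.proj 0) (NDfnF.proj i.succ.succ)).imp
      (NDfn.mem (NDfnF.proj 0) (NDfnF.proj j.succ.succ))).and
      ((NDfn.mem (NDfnF.proj 0) (NDfnF.proj j.succ.succ)).imp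
        (NDfn.mem (NDfnF.proj 0) (NDfnF.proj i.succ.succ))) |>.congr fun π _ v _ => by
          constructor
          · rintro ⟨a, b⟩
            exact ⟨a, b⟩
          · intro h
            exact ⟨h.1, h.2⟩
  refine h1.congr fun π _ v _ => ?_
  rw [π.hat_omega]
  exact Iff.rfl

theorem ndfn_RT (T : PName P') :
    NDfn {T, check ZFSet.omega} fun π (_ : Fin 0 → ZFSet.{0}) => RT T π := by
  have hT : T ∈ ({T, check ZFSet.omega} : Set (PName P')) := Or.inl rfl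
  have hom : check ZFSet.omega ∈ ({T, check ZFSet.omega} : Set (PName P')) := Or.inr rfl
  refine NDfn.and ?_ (NDfn.and ?_ ?_)
  · exact NDfn.ball (Q := fun _ y _ => y ⊆ ZFSet.omega) (NDfnF.val hT) (ndfn_sub hom 0)
  · refine NDfn.all (Q := fun π x _ => x ⊆ ZFSet.omega → ∃ y ∈ π.val T, E0 x y) ?_
    refine (ndfn_sub hom 0).imp ?_
    exact NDfn.bex (Q := fun π y v => E0 (v 0) y) (NDfnF.val hT) (ndfn_E0 hom 1 0)
  · refine NDfn.ball (Q := fun π y _ => ∀ z ∈ π.val T, E0 y z → y = z) (NDfnF.val hT) ?_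
    refine NDfn.ball (Q := fun π z v => E0 (v 0) z → v 0 = z) (NDfnF.val hT) ?_
    exact (ndfn_E0 hom 1 0).imp (NDfn.eq (NDfnF.proj 1) (NDfnF.proj 0))

end R

theorem E0.rfl' (x : ZFSet.{0}) : E0 x x :=
  ⟨nat 0, mem_omega_iff.2 ⟨0, rfl⟩, fun _ _ _ => Iff.rfl⟩

variable {I : Type}

/-- The generic real, changed in a finite set. -/
def Af (β : I) (F : Finset ℕ) (x : X I) (n : ℕ) : Bool := (x β n).xor (decide (n ∈ F))

theorem af_cont (β : I) (F : Finset ℕ) (n : ℕ) : Continuous fun x : X I => Af β F x n := by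
  have h1 : Continuous fun b : Bool => b.xor (decide (n ∈ F)) := continuous_of_discreteTopology
  exact h1.comp (by fun_prop : Continuous fun x : X I => x β n)

open Classical in
/-- There is no transversal of `E₀`. -/
theorem no_tr [Uncountable I] (π : Pkg (P I)) (T : PName (P I)) (hT : T ∈ π.N)
    (hHS : (sys I ⊤).HS T) : ¬ IsTr π.W (π.val T) := by
  intro htr
  have hRπ : RT T π := by
    refine ⟨htr.1, fun x hx hxo => ?_, fun y hy z hz h => ?_⟩
    · obtain ⟨y, ⟨h1, h2⟩, -⟩ := htr.2 x hx hxo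
      exact ⟨y, h1, h2⟩
    · obtain ⟨w, -, hw⟩ := htr.2 y (π.trans_W (π.val_mem_W hT) hy) (htr.1 y hy)
      rw [hw y ⟨hy, E0.rfl' y⟩, hw z ⟨hz, h⟩]
  obtain ⟨k, hk⟩ := forcing_theorem (ndfn_RT T) π (by
    rintro x (rfl | rfl)
    · exact hT
    · exact π.om) hRπ
  obtain ⟨H, ⟨S, hS, rfl⟩, hfix⟩ := hHS.sym
  have hfix' : ∀ θ ∈ (Fx S : Subgroup (X I ≃ₜ X I)), ∀ p : P I, Feq (act (smQ θ) T) T p :=
    fun θ hθ p => hfix θ hθ p
  obtain ⟨β, hβ⟩ := exists_out hS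
  -- the element of the transversal
  obtain ⟨F, q, hq, hF⟩ : ∃ (F : Finset ℕ) (q : P I), q ≤ π.g k ∧ Fmem (setN ⊤ (Af β F)) T q := by
    obtain ⟨π', hπ', h0⟩ := exists_pkg' (({T} : Set (PName (P I))) ∪
      ((Set.range fun F : Finset ℕ => setN ⊤ (Af β F)) ∪
        (Set.range fun t : Finset ℕ × ℕ => Sys.nm (P I) (T_ULT.dn ⊤ (Af β t.1) t.2))))
      ((Set.toFinite _).countable.union ((Set.countable_range _).union
        (Set.countable_range _))) (π.g k)
    have mT : T ∈ π'.N := hπ' (Or.inl rfl)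
    have mA : ∀ F, setN ⊤ (Af β F) ∈ π'.N := fun F => hπ' (Or.inr (Or.inl ⟨F, rfl⟩))
    have mD : ∀ F n, Sys.nm (P I) (T_ULT.dn ⊤ (Af β F) n) ∈ π'.N :=
      fun F n => hπ' (Or.inr (Or.inr ⟨(F, n), rfl⟩))
    have hR' : RT T π' := hk π' (by
      rintro x (rfl | rfl)
      · exact mT
      · exact π'.om) ⟨0, by rw [h0]⟩
    obtain ⟨y, hy, a, ha, hya⟩ := hR'.2.1 _ (π'.val_mem_W (mA ∅)) (T_ULT.val_setN_sub π')
    obtain ⟨N, rfl⟩ := mem_omega_iff.1 ha
    set F : Finset ℕ := (Finset.range N).filter fun n =>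
      ¬ (nat n ∈ π'.val (setN ⊤ (Af β ∅)) ↔ nat n ∈ y) with hFd
    have hyF : π'.val (setN ⊤ (Af β F)) = y := by
      have h1 : ∀ n, nat n ∈ π'.val (setN ⊤ (Af β F)) ↔ nat n ∈ y := by
        intro n
        obtain ⟨x, hx0, hx1⟩ := two_dec (af_cont β ∅) (af_cont β F) (mD ∅ n) (mD F n)
        have e0 : Af β ∅ x n = x β n := by simp [Af]
        rw [e0] at hx0
        have h2 : n ∈ F ↔ ¬ (nat n ∈ π'.val (setN ⊤ (Af β ∅)) ↔ nat n ∈ y) := by
          rw [hFd, Finset.mem_filter, Finset.mem_range]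
          refine ⟨fun h => h.2, fun h => ⟨?_, h⟩⟩
          by_contra h3
          exact h (hya (nat n) (mem_omega_iff.2 ⟨n, rfl⟩) fun h4 =>
            h3 (T_ULT.nat_mem_nat.1 h4))
        rw [hx1]
        by_cases h3 : n ∈ F
        · have h4 := h2.1 h3
          rw [hx0] at h4
          have e1 : Af β F x n = (x β n).xor true := by simp [Af, h3]
          rw [e1]
          cases h5 : x β n <;> rw [h5] at h4 <;> simp at h4 ⊢ <;> exact h4
        · have h4 : nat n ∈ π'.val (setN ⊤ (Af β ∅)) ↔ nat n ∈ y := by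
            by_contra h5
            exact h3 (h2.2 h5)
          have e1 : Af β F x n = x β n := by simp [Af, h3]
          rw [e1, ← hx0, h4]
      ext z
      constructor
      · intro hz
        obtain ⟨n, rfl⟩ := mem_omega_iff.1 (T_ULT.val_setN_sub π' hz)
        exact (h1 n).1 hz
      · intro hz
        obtain ⟨n, rfl⟩ := mem_omega_iff.1 (hR'.1 y hy hz)
        exact (h1 n).2 hz
    rw [← hyF, π'.val_mem_iff (mA F) mT] at hy
    obtain ⟨m, hm⟩ := hy
    exact ⟨F, π'.g m, (π'.g_anti (Nat.zero_le m)).trans (by rw [h0]), hm⟩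
  -- the flip
  obtain ⟨q', hq', N, hN⟩ := flip_cond q β
  set θ := fl β (fun n => decide (n = N)) with hθd
  have hθ : θ ∈ (Fx S : Subgroup (X I ≃ₜ X I)) := fl_mem hβ _
  have hθq : smQ θ q' = q' := hN _ fun n hn => by
    simp only [decide_eq_false_iff_not]
    omega
  set B₁ : X I → ℕ → Bool := fun x => Af β F (θ.symm x) with hB₁
  have hB₁' : ∀ x n, B₁ x n = (Af β F x n).xor (decide (n = N)) := by
    intro x n
    change ((fl β (fun n => decide (n = N))).symm x β n).xor (decide (n ∈ F)) =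
      ((x β n).xor (decide (n ∈ F))).xor (decide (n = N))
    rw [fl_symm]
    cases x β n <;> cases decide (n ∈ F) <;> cases decide (n = N) <;> rfl
  have h1 := hF.mono hq'
  have h2 : Fmem (setN ⊤ B₁) T q' := by
    have h3 := fmem_act' (e := smQ θ) h1
    rw [hθq] at h3
    exact fmem_congr (T_NAM.feq_act_setN θ _ q') (hfix' θ hθ q') h3
  obtain ⟨π', hπ', h0⟩ := exists_pkg' (({T, setN ⊤ (Af β F), setN ⊤ B₁} : Set (PName (P I))) ∪
    ((Set.range fun n => Sys.nm (P I) (T_ULT.dn ⊤ (Af β F) n)) ∪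
      (Set.range fun n => Sys.nm (P I) (T_ULT.dn ⊤ B₁ n))))
    ((Set.toFinite _).countable.union ((Set.countable_range _).union
      (Set.countable_range _))) q'
  have mT : T ∈ π'.N := hπ' (Or.inl (Or.inl rfl))
  have mA : setN ⊤ (Af β F) ∈ π'.N := hπ' (Or.inl (Or.inr (Or.inl rfl)))
  have mB₁ : setN ⊤ B₁ ∈ π'.N := hπ' (Or.inl (Or.inr (Or.inr rfl)))
  have kA : ∀ n, Sys.nm (P I) (T_ULT.dn ⊤ (Af β F) n) ∈ π'.N :=
    fun n => hπ' (Or.inr (Or.inl ⟨n, rfl⟩))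
  have k₁ : ∀ n, Sys.nm (P I) (T_ULT.dn ⊤ B₁ n) ∈ π'.N :=
    fun n => hπ' (Or.inr (Or.inr ⟨n, rfl⟩))
  have hR' : RT T π' := hk π' (by
    rintro x (rfl | rfl)
    · exact mT
    · exact π'.om) ⟨0, by
      rw [h0]
      exact hq'.trans hq⟩
  have c₁ : ∀ n, Continuous fun x => B₁ x n := fun n => (af_cont β F n).comp θ.symm.continuous
  have i₀ : π'.val (setN ⊤ (Af β F)) ∈ π'.val T := by
    rw [π'.val_mem_iff mA mT]
    exact ⟨0, by rw [h0]; exact h1⟩
  have i₁ : π'.val (setN ⊤ B₁) ∈ π'.val T := by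
    rw [π'.val_mem_iff mB₁ mT]
    exact ⟨0, by rw [h0]; exact h2⟩
  have h3 := hR'.2.2 _ i₀ _ i₁ (by
    refine ⟨nat (N + 1), mem_omega_iff.2 ⟨_, rfl⟩, fun m hm hmN => ?_⟩
    obtain ⟨n, rfl⟩ := mem_omega_iff.1 hm
    rw [T_ULT.nat_mem_nat, not_lt] at hmN
    obtain ⟨x, hx0, hx1⟩ := two_dec (af_cont β F) c₁ (kA n) (k₁ n)
    have e : B₁ x n = Af β F x n := by
      rw [hB₁', decide_eq_false (by omega : ¬ n = N), Bool.xor_false]
    rw [hx0, hx1, e])
  obtain ⟨x, hx0, hx1⟩ := two_dec (af_cont β F) c₁ (kA N) (k₁ N)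
  rw [h3, hx1, hB₁', decide_eq_true rfl] at hx0
  revert hx0
  cases Af β F x N <;> simp

end Pool.Agent.Y588.KF
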